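import Mathlib

/-!
Complex curves through their function fields, regular differentials, algebraic families of curves
and maps from a family to a fixed curve.
-/

namespace Pool.Agent.Lib.MP_13404a_ag

open scoped IntermediateField

noncomputable section

/-- A smooth projective complex curve, given by its function field. -/
structure Curve where
  /-- The function field. -/
  K : Type
  [field : Field K]
  [algebra : Algebra ℂ K]
  dimOne : ∃ x : K, Transcendental ℂ x ∧ FiniteDimensional ℂ⟮x⟯ K

attribute [instance] Curve.field Curve.algebra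

/-- Differentials that are regular at every valuation ring of `K / ℂ`. -/
def regular (K : Type) [Field K] [Algebra ℂ K] : Submodule ℂ Ω[K⁄ℂ] :=
  ⨅ (O : Subalgebra ℂ K) (_ : ∀ x : K, x ∈ O ∨ x⁻¹ ∈ O),
    Submodule.span ℂ {ω | ∃ f ∈ O, ∃ g ∈ O, ω = f • KaehlerDifferential.D ℂ K g}

/-- The genus: the dimension of the space of regular differentials. -/
def Curve.genus (C : Curve) : ℕ := Module.finrank ℂ (regular C.K)

/-- Pull-back of differentials along an embedding of function fields. -/
def pull {F K : Type} [Field F] [Algebra ℂ F] [Field K] [Algebra ℂ K] (ι : F →ₐ[ℂ] K) :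
    Ω[F⁄ℂ] → Ω[K⁄ℂ] :=
  letI := ι.toAlgebra
  haveI := IsScalarTower.of_algHom ι
  KaehlerDifferential.map ℂ ℂ F K

/-- An algebraic family of integral affine curves `V(I_b) ⊆ 𝔸ⁿ` over a Zariski closed `B ⊆ ℂᵐ`;
`C b` is the curve whose function field is that of the fibre over `b`, with coordinates `x b`. -/
structure Family where
  m : ℕ
  n : ℕ
  B : Set (Fin m → ℂ)
  closed : ∃ S : Set (MvPolynomial (Fin m) ℂ), B = {b | ∀ p ∈ S, MvPolynomial.eval b p = 0}
  I : Ideal (MvPolynomial (Fin n) (MvPolynomial (Fin m) ℂ))
  C : B → Curve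
  x : ∀ b, Fin n → (C b).K
  ker : ∀ b, RingHom.ker (MvPolynomial.aeval (R := ℂ) (x b)) =
    I.map (MvPolynomial.map (MvPolynomial.eval b.1))
  gen : ∀ b, IntermediateField.adjoin ℂ (Set.range (x b)) = ⊤

/-- The function on the fibre over `b` defined by a polynomial on `B × 𝔸ⁿ`. -/
def Family.ev (X : Family) (b : X.B) (p : MvPolynomial (Fin X.n) (MvPolynomial (Fin X.m) ℂ)) :
    (X.C b).K :=
  MvPolynomial.aeval (X.x b) (MvPolynomial.map (MvPolynomial.eval b.1) p)

/-- A map from the family to the fixed curve `F`, nonconstant on each fibre and given by rational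
functions on the total space whose denominators vanish on no fibre. -/
structure Family.MapTo (X : Family) (F : Curve) where
  ι : ∀ b, F.K →ₐ[ℂ] (X.C b).K
  rational : ∀ f, ∃ p q, ∀ b, X.ev b q ≠ 0 ∧ ι b f = X.ev b p / X.ev b q

/-- Infinitely many pairwise non-isomorphic fibres. -/
def Family.Varies (X : Family) : Prop :=
  ∃ s : ℕ → X.B, ∀ i j, i ≠ j → IsEmpty ((X.C (s i)).K ≃ₐ[ℂ] (X.C (s j)).K)

/-- There are `r` regular differentials on fixed curves whose pull-backs are linearly independent
on every fibre. -/
def Family.FixedPart (X : Family) (r : ℕ) : Prop :=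
  ∃ (F : Fin r → Curve) (φ : ∀ j, X.MapTo (F j)) (ω : ∀ j, regular (F j).K),
    ∀ b, LinearIndependent ℂ fun j => pull ((φ j).ι b) (ω j)

end

end Pool.Agent.Lib.MP_13404a_ag
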