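import Pool.Agent.Lib.MP_13404a_ag.Quad

/-!
The elliptic curve `x ^ 2 - x = w ^ 3`.
-/

open Polynomial
open scoped IntermediateField

namespace Pool.Agent.Lib.MP_13404a_ag

open Pool.Agent.Lib.MP_15f242_ag

instance : FF ℂ (RatFunc ℂ) := inferInstanceAs (FF ℂ line.K)

lemma rat_eq {K : Type} [Field K] [Algebra ℂ K] (j : RatFunc ℂ →ₐ[ℂ] K) (r : RatFunc ℂ) :
    aeval (j RatFunc.X) r.denom ≠ 0 ∧
      j r = aeval (j RatFunc.X) r.num / aeval (j RatFunc.X) r.denom := by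
  have h : ∀ p : ℂ[X], aeval (j RatFunc.X) p = j (algebraMap _ _ p) := fun p => by
    rw [aeval_algHom_apply, RatFunc.aeval_X_left_eq_algebraMap]
  rw [h, h, ← map_div₀, RatFunc.num_div_denom]
  exact ⟨by simpa using r.denom_ne_zero, rfl⟩

lemma not_root (r : RatFunc ℂ) : r ^ 2 ≠ RatFunc.X ^ 3 + 1 * r := fun h => by
  obtain ⟨P, hP⟩ := exists_pole (k := ℂ) (RatFunc.transcendental_X (K := ℂ))
  rw [mem_iff_po, not_le] at hP
  have h1 : po P (r ^ 2 - r) = 3 * po P RatFunc.X := by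
    rw [h, one_mul, add_sub_cancel_right, po_pow]; rfl
  by_cases h2 : r ∈ P.1
  · have := mem_iff_po.1 (sub_mem (pow_mem h2 2) h2)
    omega
  have r0 : r ≠ 0 := fun e => h2 (e ▸ zero_mem _)
  rw [mem_iff_po, not_le] at h2
  have h3 := (po_add (P := P) (neg_ne_zero.2 r0) (pow_ne_zero 2 r0) (by
    rw [← neg_one_mul, po_mul P (by simp) r0, po_pow, ← map_one (algebraMap ℂ _), ← map_neg,
      po_const]
    push_cast
    omega)).2
  obtain ⟨h4, h5⟩ := rat_eq (AlgHom.id ℂ _) r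
  simp only [AlgHom.id_apply] at h4 h5
  obtain ⟨h6, h7⟩ := po_aeval hP r.num (RatFunc.num_ne_zero r0)
  rw [neg_add_eq_sub, h1, po_pow] at h3
  have h8 := congrArg (po P) h5
  rw [div_eq_mul_inv, po_mul P h6 (inv_ne_zero h4), po_inv, h7,
    (po_aeval hP r.denom r.denom_ne_zero).2] at h8
  have h9 : (3 - 2 * (r.num.natDegree - r.denom.natDegree)) * po P RatFunc.X = 0 := by
    push_cast at h3
    linarith
  rcases mul_eq_zero.1 h9 with h | h <;> omega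

variable {E : Type} [Field E] [Algebra ℂ E]

/-- The function field of the curve with the invariant derivation. -/
structure EL (j : RatFunc ℂ →ₐ[ℂ] E) (w x : E) (D : Derivation ℂ E E) : Prop where
  hw : j RatFunc.X = w
  quad : Quad j (RatFunc.X ^ 3) 1 x
  Dw : D w = 2 * x - 1

lemma exists_EL : ∃ (C : Curve) (j : RatFunc ℂ →ₐ[ℂ] C.K) (w x : C.K) (D : Derivation ℂ C.K C.K),
    EL j w x D := by
  obtain ⟨C, j, x, h⟩ := exists_quad line not_root
  obtain ⟨D, hD⟩ := exists_der (trans_map j RatFunc.transcendental_X) (2 * x - 1)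
  exact ⟨C, j, _, x, D, rfl, h, hD⟩

namespace EL

variable {j : RatFunc ℂ →ₐ[ℂ] E} {w x : E} {D : Derivation ℂ E E} (h : EL j w x D)

include h

lemma eqn : x ^ 2 - x = w ^ 3 := by
  have := h.quad.sq
  rw [map_pow, h.hw, map_one] at this
  linear_combination this

lemma trans : Transcendental ℂ w := h.hw ▸ trans_map j RatFunc.transcendental_X

lemma ind {p q : ℂ[X]} (e : aeval w p + aeval w q * x = 0) : p = 0 ∧ q = 0 := by
  have h1 : ∀ p : ℂ[X], aeval w p = j (algebraMap _ _ p) := fun p => by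
    rw [← h.hw, aeval_algHom_apply, RatFunc.aeval_X_left_eq_algebraMap]
  rw [h1, h1] at e
  simpa using h.quad.ind _ _ e

lemma Dw_ne : D w ≠ 0 := fun e => by
  have := (h.ind (p := -1) (q := C 2) (by
    rw [h.Dw] at e
    simp only [map_neg, map_one, map_ofNat]
    linear_combination e)).1
  simp at this

lemma Dx : D x = 3 * w ^ 2 := by
  have h1 := congrArg D h.eqn
  refine mul_left_cancel₀ h.Dw_ne ?_
  simp only [map_sub, Derivation.leibniz_pow, smul_eq_mul, nsmul_eq_mul] at h1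
  rw [h.Dw] at h1 ⊢
  push_cast at h1
  linear_combination h1

lemma gen {M : IntermediateField ℂ E} (h1 : w ∈ M) (h2 : x ∈ M) : M = ⊤ :=
  h.quad.adjoin RatFunc.adjoin_X (by simpa [h.hw] using h1) h2

lemma lift {K : Type} [Field K] [Algebra ℂ K] {W V : K} (hW : Transcendental ℂ W)
    (e : V ^ 2 - V = W ^ 3) : ∃ φ : E →ₐ[ℂ] K, φ w = W ∧ φ x = V := by
  let ψ := ℂ⟮W⟯.val.comp (RatFunc.algEquivOfTranscendental W hW).toAlgHom
  have h1 : ψ RatFunc.X = W := RatFunc.algEquivOfTranscendental_X W hW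
  obtain ⟨φ, h2, h3⟩ := h.quad.lift K ψ V (by
    rw [map_pow, h1, map_one]
    linear_combination e)
  exact ⟨φ, by rw [← h.hw, h2, h1], h3⟩

variable [FF ℂ E] {Q : Pt ℂ E}

lemma po_x (hx : x ∉ Q.1) : 0 < po Q x ∧ 2 * po Q x = 3 * po Q w := by
  have x0 : x ≠ 0 := h.quad.ne_zero
  rw [mem_iff_po, not_le] at hx
  have h3 := (po_add (P := Q) (neg_ne_zero.2 x0) (pow_ne_zero 2 x0) (by
    rw [← neg_one_mul, po_mul Q (by simp) x0, po_pow, ← map_one (algebraMap ℂ _), ← map_neg,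
      po_const]
    push_cast
    omega)).2
  rw [neg_add_eq_sub, h.eqn, po_pow, po_pow] at h3
  exact ⟨hx, by exact_mod_cast h3.symm⟩

lemma x_mem (hw : w ∈ Q.1) : x ∈ Q.1 := by
  by_contra hx
  have := h.po_x hx
  have := mem_iff_po.1 hw
  omega

lemma x_not_mem (hw : w ∉ Q.1) : x ∉ Q.1 := fun hx => by
  have := mem_iff_po.1 (sub_mem (pow_mem hx 2) hx)
  rw [h.eqn, po_pow] at this
  rw [mem_iff_po] at hw
  push_cast at this
  omega

omit h in
lemma ord_zero {S : Set E} (h1 : IntermediateField.adjoin ℂ S = ⊤) (h2 : S ⊆ Q.1)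
    (h3 : ∀ s ∈ S, D s ∈ Algebra.adjoin ℂ S) (h4 : ∀ m, (∀ f ∈ Q.1, D f ∈ fil Q m) → 1 ∈ fil Q m)
    (h5 : D w ≠ 0) : Ord Q D 0 := by
  obtain ⟨m, hm⟩ := exists_ord Q h5
  obtain ⟨π, -, hπ⟩ := exists_po Q (-1)
  have h6 := mem_iff_po.1 (der_mem_of_stable (D := D.restrictScalars ℤ) (fun c => ⟨0, by simp⟩)
    h1 h2 h3 (mem_iff_po.2 (hπ.le.trans (by omega))))
  have h7 := (hm.po_eq π (by omega)).2
  have h8 := (mem_fil one_ne_zero).1 (h4 m hm.mem)
  rw [po_one] at h8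
  obtain rfl : m = 0 := by
    change po Q (D π) ≤ 0 at h6
    omega
  exact hm

lemma ord_fin (hw : w ∈ Q.1) : Ord Q D 0 := by
  have hx := h.x_mem hw
  have m1 : w ∈ Algebra.adjoin ℂ {w, x} := Algebra.subset_adjoin (by simp)
  have m2 : x ∈ Algebra.adjoin ℂ {w, x} := Algebra.subset_adjoin (by simp)
  refine ord_zero (S := {w, x}) (h.gen (IntermediateField.subset_adjoin _ _ (by simp))
    (IntermediateField.subset_adjoin _ _ (by simp))) (by simp [Set.insert_subset_iff, hw, hx])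
    ?_ (fun m hm => ?_) h.Dw_ne
  · rintro _ (rfl | rfl)
    · rw [h.Dw]
      exact sub_mem (mul_mem (ofNat_mem _ 2) m2) (one_mem _)
    · rw [h.Dx]
      exact mul_mem (ofNat_mem _ 3) (pow_mem m1 2)
  · have := sub_mem (mul_fil (sub_mem (mul_mem (ofNat_mem _ 2) hx) (one_mem _)) (hm w hw))
      (mul_fil (mul_mem (Q.1.algebraMap_mem (4 / 3)) hw) (hm x hx))
    convert this using 1
    rw [h.Dw, h.Dx, map_div₀, map_ofNat, map_ofNat]
    have : CharZero E := charZero_of_injective_algebraMap (algebraMap ℂ E).injective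
    linear_combination (-4) * h.eqn

omit [FF ℂ E] in
lemma inf_eqs : D x⁻¹ = -3 * (w * x⁻¹) ^ 2 ∧ D (w * x⁻¹) = 2 * x⁻¹ - 1 := by
  have x0 : x ≠ 0 := h.quad.ne_zero
  have e : D x⁻¹ = -3 * (w * x⁻¹) ^ 2 := by
    rw [D.leibniz_inv, h.Dx, smul_eq_mul]
    ring
  refine ⟨e, ?_⟩
  rw [D.leibniz, e, h.Dw, smul_eq_mul, smul_eq_mul]
  field_simp
  linear_combination 3 * h.eqn

lemma ord_inf (hw : w ∉ Q.1) : Ord Q D 0 ∧ po Q w = 2 ∧ po Q x = 3 := by
  have x0 : x ≠ 0 := h.quad.ne_zero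
  have w0 : w ≠ 0 := fun e => hw (e ▸ zero_mem _)
  obtain ⟨h1, h2⟩ := h.po_x (h.x_not_mem hw)
  have h3 : po Q (w * x⁻¹) = po Q w - po Q x := by
    rw [po_mul Q w0 (inv_ne_zero x0), po_inv]; rfl
  have hu : Vl Q (w * x⁻¹) 0 := Vl.zero_iff.2 (mem_fil_of (by omega))
  have hr : Vl Q x⁻¹ 0 := Vl.zero_iff.2 (mem_fil_of (by rw [po_inv]; omega))
  have hd : Vl Q (D (w * x⁻¹)) (2 * 0 - 1) := h.inf_eqs.2 ▸ ((Vl.nat 2).mul hr).sub Vl.one
  have m1 : w * x⁻¹ ∈ Algebra.adjoin ℂ {w * x⁻¹, x⁻¹} := Algebra.subset_adjoin (by simp)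
  have m2 : x⁻¹ ∈ Algebra.adjoin ℂ {w * x⁻¹, x⁻¹} := Algebra.subset_adjoin (by simp)
  have n2 : x ∈ IntermediateField.adjoin ℂ {w * x⁻¹, x⁻¹} :=
    inv_mem_iff.1 (IntermediateField.subset_adjoin _ _ (by simp))
  have n1 : w ∈ IntermediateField.adjoin ℂ {w * x⁻¹, x⁻¹} := by
    simpa [x0] using mul_mem (IntermediateField.subset_adjoin ℂ {w * x⁻¹, x⁻¹}
      (show w * x⁻¹ ∈ _ by simp)) n2
  have ho : Ord Q D 0 := by
    refine ord_zero (h.gen n1 n2) (by simp [Set.insert_subset_iff, hu.mem, hr.mem])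
      ?_ (fun m hm => hd.cancel (by norm_num) (by simpa using hm _ hu.mem)) h.Dw_ne
    rintro _ (rfl | rfl)
    · rw [h.inf_eqs.2]
      exact sub_mem (mul_mem (ofNat_mem _ 2) m2) (one_mem _)
    · rw [h.inf_eqs.1]
      exact mul_mem (neg_mem (ofNat_mem _ 3)) (pow_mem m1 2)
  have := (Vl.simple ho hu hd (by norm_num)).2
  exact ⟨ho, by omega, by omega⟩

lemma ord (Q : Pt ℂ E) : Ord Q D 0 :=
  (em (w ∈ Q.1)).elim h.ord_fin fun hw => (h.ord_inf hw).1

lemma rat_poly {c : RatFunc ℂ} (hc : ∀ Q : Pt ℂ E, w ∈ Q.1 → j c * (2 * x - 1) ∈ Q.1) :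
    ∃ p : ℂ[X], j c = aeval w p := by
  obtain ⟨h1, h2⟩ := rat_eq j c
  rw [h.hw] at h1 h2
  by_cases h3 : c.denom.degree = 0
  · rw [c.monic_denom.degree_le_zero_iff_eq_one.1 h3.le] at h2
    exact ⟨c.num, by simpa using h2⟩
  exfalso
  obtain ⟨α, hα⟩ := IsAlgClosed.exists_root _ h3
  obtain ⟨Q, hQ⟩ := exists_zero h.trans α
  have a0 : w - algebraMap ℂ E α ≠ 0 := fun e =>
    h.trans (sub_eq_zero.1 e ▸ isAlgebraic_algebraMap α)
  have h4 := (mem_fil a0).1 hQ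
  have h5 := (h.ord Q).po_eq _ (show po Q (w - algebraMap ℂ E α) ≠ 0 by omega)
  rw [map_sub, D.map_algebraMap, sub_zero, h.Dw] at h5
  have h6 : c.num.eval α ≠ 0 := fun e => by
    obtain ⟨a, b, hab⟩ := c.isCoprime_num_denom
    have := congrArg (eval α) hab
    simp [e, hα.eq_zero] at this
  obtain ⟨h7, h8⟩ := (hQ.aeval c.num).po_zero h6
  obtain ⟨d, hd⟩ := dvd_iff_isRoot.2 hα
  have e : aeval w c.denom = (w - algebraMap ℂ E α) * aeval w d := by rw [hd]; simp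
  have d0 : aeval w d ≠ 0 := fun e' => h1 (by rw [e, e', mul_zero])
  have h9 := mem_iff_po.1 (hQ.aeval d).mem
  have h10 := mem_iff_po.1 (hc Q hQ.mem)
  rw [h2, po_mul Q (div_ne_zero h7 h1) h5.1, div_eq_mul_inv, po_mul Q h7 (inv_ne_zero h1), po_inv,
    e, po_mul Q a0 d0] at h10
  omega

lemma poly {φ : E} (hφ : ∀ Q : Pt ℂ E, w ∈ Q.1 → φ ∈ Q.1) :
    ∃ p q : ℂ[X], φ = aeval w p + aeval w q * x := by
  obtain ⟨σ, h1, h2⟩ := h.quad.lift E j (1 - x) (by linear_combination h.quad.sq - (1 - 2 * x) * map_one j)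
  obtain ⟨a, b, rfl⟩ := h.quad.span φ
  have h3 : σ w = w := by rw [← h.hw, h1]
  obtain ⟨q, hq⟩ := h.rat_poly (c := b) fun Q hQ => by
    have := sub_mem (hφ Q hQ) (mem_res.1 (hφ (res σ Q) (mem_res.2 (h3.symm ▸ hQ))))
    convert this using 1
    rw [map_add, map_mul, h1, h1, h2]
    ring
  obtain ⟨p, hp⟩ := h.rat_poly (c := a) fun Q hQ => by
    have hx := h.x_mem hQ
    have h4 : j b ∈ Q.1 := hq ▸ (Algebra.adjoin_le (by simpa using hQ) :
      Algebra.adjoin ℂ {w} ≤ Q.1) (aeval_mem_adjoin_singleton ℂ w)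
    refine mul_mem ?_ (sub_mem (mul_mem (ofNat_mem _ 2) hx) (one_mem _))
    simpa using sub_mem (hφ Q hQ) (mul_mem h4 hx)
  exact ⟨p, q, by rw [hp, hq]⟩

end EL

end Pool.Agent.Lib.MP_13404a_ag
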