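import Pool.Agent.Lib.MP_13404a_ag.Der

/-!
Existence of derivations.
-/

open Polynomial
open scoped IntermediateField

namespace Pool.Agent.Lib.MP_13404a_ag

open Pool.Agent.Lib.MP_15f242_ag

lemma exists_extend {R A K : Type*} [CommRing R] [CommRing A] [IsDomain A] [CharZero A] [Field K]
    [Algebra R A] [Algebra A K] [Algebra R K] [IsScalarTower R A K] [FaithfulSMul A K]
    [Algebra.IsAlgebraic A K] (d : Derivation R A K) :
    ∃ D : Derivation R K K, ∀ a, D (algebraMap A K a) = d a := by
  let := FractionRing.liftAlgebra A K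
  have := FractionRing.isScalarTower_liftAlgebra A K
  have : Algebra.IsAlgebraic (FractionRing A) K :=
    Algebra.IsAlgebraic.extendScalars (FaithfulSMul.algebraMap_injective A _)
  have := Algebra.FormallyEtale.of_isSeparable (FractionRing A) K
  have := Algebra.FormallyEtale.comp A (FractionRing A) K
  have h := KaehlerDifferential.isBaseChange_of_formallyEtale R A K
  refine ⟨(h.lift d.liftKaehlerDifferential).compDer (KaehlerDifferential.D R K), fun a => ?_⟩
  have := h.lift_eq d.liftKaehlerDifferential (KaehlerDifferential.D R A a)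
  simpa using this

/-- Countably many complex numbers with dual derivations. -/
lemma exists_dual_seq : ∃ (t : ℕ → ℂ) (δ : ℕ → Derivation ℤ ℂ ℂ),
    ∀ i j, δ i (t j) = if i = j then 1 else 0 := by
  classical
  obtain ⟨s, hs⟩ := exists_isTranscendenceBasis ℤ ℂ
  have h1 := IsAlgClosed.cardinal_eq_cardinal_transcendence_basis_of_aleph0_lt' _ hs
    Cardinal.mk_le_aleph0 (by rw [Cardinal.mk_complex]; exact Cardinal.aleph0_lt_continuum)
  have : Infinite s := Cardinal.aleph0_le_mk_iff.1 (by
    rw [← h1, Cardinal.mk_complex]; exact Cardinal.aleph0_le_continuum)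
  let : Algebra (MvPolynomial s ℤ) ℂ := (MvPolynomial.aeval ((↑) : s → ℂ)).toAlgebra
  have : IsScalarTower ℤ (MvPolynomial s ℤ) ℂ := IsScalarTower.of_algHom _
  have : FaithfulSMul (MvPolynomial s ℤ) ℂ :=
    (faithfulSMul_iff_algebraMap_injective _ _).2 hs.1
  have : Algebra.IsAlgebraic (MvPolynomial s ℤ) ℂ := ⟨fun x =>
    IsAlgebraic.of_ringHom_of_comp_eq hs.1.aevalEquiv.toAlgHom.toRingHom (RingHom.id ℂ)
      (hs.isAlgebraic.isAlgebraic x) hs.1.aevalEquiv.surjective Function.injective_id
      (RingHom.ext fun p => hs.1.algebraMap_aevalEquiv p)⟩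
  let e := Infinite.natEmbedding s
  choose D hD using fun i : ℕ => exists_extend
    (MvPolynomial.mkDerivation ℤ fun j : s => if e i = j then (1 : ℂ) else 0)
  refine ⟨fun j => e j, D, fun i j => ?_⟩
  have := hD i (MvPolynomial.X (e j))
  rw [MvPolynomial.mkDerivation_X] at this
  simpa [RingHom.algebraMap_toAlgebra] using this

variable {K : Type} [Field K] [Algebra ℂ K] [FF ℂ K]

lemma alg_poly {w : K} (hw : Transcendental ℂ w) :
    letI : Algebra ℂ[X] K := (aeval w).toAlgebra
    Algebra.IsAlgebraic ℂ[X] K := by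
  let : Algebra ℂ[X] K := (aeval w).toAlgebra
  refine ⟨fun x => IsAlgebraic.of_ringHom_of_comp_eq
    ((aeval w).codRestrict _ fun _ => aeval_mem_adjoin_singleton ℂ w).toRingHom (RingHom.id K)
    (alg_adjoin hw x) (fun a => ?_) Function.injective_id rfl⟩
  obtain ⟨p, hp⟩ := (Algebra.adjoin_singleton_eq_range_aeval ℂ w).le a.2
  exact ⟨p, Subtype.ext hp⟩

lemma exists_der {w : K} (hw : Transcendental ℂ w) (g : K) :
    ∃ D : Derivation ℂ K K, D w = g := by
  let : Algebra ℂ[X] K := (aeval w).toAlgebra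
  have : IsScalarTower ℂ ℂ[X] K := IsScalarTower.of_algHom _
  have : FaithfulSMul ℂ[X] K :=
    (faithfulSMul_iff_algebraMap_injective _ _).2 (transcendental_iff_injective.1 hw)
  have := alg_poly hw
  obtain ⟨D, hD⟩ := exists_extend (mkDerivation ℂ g)
  exact ⟨D, by simpa [RingHom.algebraMap_toAlgebra] using hD X⟩

lemma exists_der_ext {w : K} (hw : Transcendental ℂ w) (δ : Derivation ℤ ℂ ℂ) :
    ∃ D : Derivation ℤ K K, D w = 0 ∧ ∀ c, D (algebraMap ℂ K c) = algebraMap ℂ K (δ c) := by
  let : Algebra ℂ[X] K := (aeval w).toAlgebra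
  have : FaithfulSMul ℂ[X] K :=
    (faithfulSMul_iff_algebraMap_injective _ _).2 (transcendental_iff_injective.1 hw)
  have := alg_poly hw
  let : Differential ℂ := ⟨δ⟩
  obtain ⟨D, hD⟩ := exists_extend ((Algebra.linearMap ℂ[X] K).compDer Differential.mapCoeffs)
  refine ⟨D, by simpa [RingHom.algebraMap_toAlgebra] using hD X, fun c => ?_⟩
  have h : D (algebraMap ℂ K c) = algebraMap ℂ K (Differential.deriv c) := by
    simpa [RingHom.algebraMap_toAlgebra] using hD (C c)
  exact h

end Pool.Agent.Lib.MP_13404a_ag
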