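import Pool.Agent.Lib.MP_13404a_ag.Maps

/-!
Equations of the affine model and rational functions on a family.
-/

namespace Pool.Agent.Lib.MP_13404a_ag

open Pool.Agent.Lib.MP_15f242_ag QuadraticAlgebra

lemma map_fs {A B : Type} [CommRing A] [Algebra ℂ A] [CommRing B] [Algebra ℂ B] (φ : A →ₐ[ℂ] B)
    (ζ : ℂ) (ε k : ℕ) (w x : A) : φ (fs ζ ε k w x) = fs ζ ε k (φ w) (φ x) := by
  simp only [fs, hh, map_mul, map_add, map_sub, map_pow, map_ofNat, AlgHom.commutes, map_one]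

lemma map_fy {A B : Type} [CommRing A] [Algebra ℂ A] [CommRing B] [Algebra ℂ B] (φ : A →ₐ[ℂ] B)
    (t : ℂ) (w x : A) : φ (fy t w x) = fy t (φ w) (φ x) := by
  simp only [fy, map_mul, map_sub, AlgHom.commutes]

variable {E Y K : Type} [Field E] [Algebra ℂ E] [Field Y] [Algebra ℂ Y] [Field K] [Algebra ℂ K]
  {j : RatFunc ℂ →ₐ[ℂ] E} {w x : E} {D : Derivation ℂ E E} {ζ t : ℂ} {ε k : ℕ}

lemma Quad.exists_inj {R : Type} [CommRing R] [Algebra ℂ R] {i : E →ₐ[ℂ] K} {a b : R} {a' b' : E}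
    {u : K} (h : Quad i a' b' u) {ψ : R →ₐ[ℂ] E} (hψ : Function.Injective ψ) (ha : ψ a = a')
    (hb : ψ b = b') : ∃ π : QuadraticAlgebra R a b →ₐ[ℂ] K, Function.Injective π ∧
      (∀ r, π (qin a b r) = i (ψ r)) ∧ π omega = u := by
  subst ha hb
  exact ⟨_, h.inj hψ, qlift_qin _ _ _, qlift_omega _ _ _⟩

open MvPolynomial in
lemma TW.univ {i : E →ₐ[ℂ] Y} {s : Y} {l : Y →ₐ[ℂ] K} {y : K} {DK : Derivation ℂ K K}
    (h : TW j w x D ζ ε k t i s l y DK) {B : Type} [CommRing B] [Algebra ℂ B]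
    (m : MvPolynomial (Fin 4) ℂ →ₐ[ℂ] B) (h1 : m (X 1) * m (X 1) = m (X 0) ^ 3 + m (X 1))
    (h2 : m (X 2) * m (X 2) = fs ζ ε k (m (X 0)) (m (X 1)))
    (h3 : m (X 3) * m (X 3) = fy t (m (X 0)) (m (X 1))) {p : MvPolynomial (Fin 4) ℂ}
    (hp : aeval (R := ℂ) ![l (i w), l (i x), l s, y] p = 0) : m p = 0 := by
  obtain ⟨π1, i1, a1, b1⟩ := h.el.quad.exists_inj (ψ := Polynomial.aeval RatFunc.X)
    (transcendental_iff_injective.1 RatFunc.transcendental_X) (a := Polynomial.X ^ 3) (b := 1)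
    (by simp) (by simp)
  have c1 : π1 (qin _ _ Polynomial.X) = w := by simp [a1, h.el.hw]
  obtain ⟨π2, i2, a2, b2⟩ := h.qs.exists_inj i1 (a := fs ζ ε k (qin _ _ Polynomial.X) omega)
    (b := 0) (by rw [map_fs, c1, b1]) (map_zero _)
  obtain ⟨π3, i3, a3, b3⟩ := h.qy.exists_inj i2
    (a := qin _ _ (fy t (qin _ _ Polynomial.X) omega)) (b := 0) (by rw [a2, map_fy, c1, b1])
    (map_zero _)
  have r1 : m (X 1) * m (X 1) = Polynomial.aeval (m (X 0)) (Polynomial.X ^ 3 : Polynomial ℂ) +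
      Polynomial.aeval (m (X 0)) (1 : Polynomial ℂ) * m (X 1) := by simpa using h1
  let l1 := qlift _ _ r1
  have d1 : l1 (qin _ _ Polynomial.X) = m (X 0) := by simp [l1, qlift_qin]
  have e1 : l1 omega = m (X 1) := qlift_omega _ _ _
  have r2 : m (X 2) * m (X 2) = l1 (fs ζ ε k (qin _ _ Polynomial.X) omega) + l1 0 * m (X 2) := by
    rw [map_fs, d1, e1, map_zero, zero_mul, add_zero, h2]
  let l2 := qlift _ _ r2
  have r3 : m (X 3) * m (X 3) = l2 (qin _ _ (fy t (qin _ _ Polynomial.X) omega)) +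
      l2 0 * m (X 3) := by
    rw [qlift_qin, map_fy, d1, e1, map_zero, zero_mul, add_zero, h3]
  let l3 := qlift _ _ r3
  have key : ∀ th : MvPolynomial (Fin 4) ℂ →ₐ[ℂ] _,
      π3.comp th = aeval ![l (i w), l (i x), l s, y] → l3.comp th = m → m p = 0 := by
    intro th f1 f2
    have f3 : th p = 0 := i3 (by rw [map_zero, ← AlgHom.comp_apply, f1]; exact hp)
    rw [← f2, AlgHom.comp_apply, f3, map_zero]
  refine key (aeval ![qin _ _ (qin _ _ (qin _ _ Polynomial.X)), qin _ _ (qin _ _ omega),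
    qin _ _ omega, omega]) (algHom_ext fun n => ?_) (algHom_ext fun n => ?_)
  · fin_cases n <;> simp [a3, a2, c1, b1, b2, b3]
  · fin_cases n <;> simp [l3, l2, qlift_qin, qlift_omega, d1, e1]

open MvPolynomial in
lemma TW.ker {i : E →ₐ[ℂ] Y} {s : Y} {l : Y →ₐ[ℂ] K} {y : K} {DK : Derivation ℂ K K}
    (h : TW j w x D ζ ε k t i s l y DK) :
    RingHom.ker (aeval (R := ℂ) ![l (i w), l (i x), l s, y]) = Ideal.span
      {X 1 * X 1 - (X 0 ^ 3 + X 1), X 2 * X 2 - fs ζ ε k (X 0) (X 1),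
        X 3 * X 3 - fy t (X 0) (X 1)} := by
  refine le_antisymm (fun p hp => ?_) (Ideal.span_le.2 ?_)
  · refine Ideal.Quotient.eq_zero_iff_mem.1 (h.univ (Ideal.Quotient.mkₐ ℂ _) ?_ ?_ ?_ hp)
    · rw [← map_mul, ← map_pow, ← map_add]
      exact Ideal.Quotient.eq.2 (Ideal.subset_span (by simp))
    · rw [← map_mul, ← map_fs]
      exact Ideal.Quotient.eq.2 (Ideal.subset_span (by simp))
    · rw [← map_mul, ← map_fy]
      exact Ideal.Quotient.eq.2 (Ideal.subset_span (by simp))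
  · rintro _ (rfl | rfl | rfl) <;> rw [SetLike.mem_coe, RingHom.mem_ker]
    · have := congrArg (l.comp i) h.el.eqn
      simp at this ⊢
      linear_combination this
    · simp [map_fs, h.s_sq]
    · simp [map_fy, h.y_sq]

namespace Family

variable (X : Family)

/-- Evaluation on a fibre as a ring homomorphism. -/
noncomputable def evH (b : X.B) :
    MvPolynomial (Fin X.n) (MvPolynomial (Fin X.m) ℂ) →+* (X.C b).K :=
  (MvPolynomial.aeval (X.x b)).toRingHom.comp (MvPolynomial.map (MvPolynomial.eval b.1))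

/-- A function on each fibre, induced by a rational function on the total space. -/
def Rat (g : ∀ b, (X.C b).K) : Prop :=
  ∃ p q, ∀ b, X.evH b q ≠ 0 ∧ g b = X.evH b p / X.evH b q

variable {X} {f g : ∀ b, (X.C b).K}

lemma Rat.poly (p) : X.Rat fun b => X.evH b p := ⟨p, 1, fun b => by simp⟩

lemma Rat.coord (n) : X.Rat fun b => X.x b n := by
  simpa [evH] using Rat.poly (X := X) (MvPolynomial.X n)

lemma Rat.par (n) : X.Rat fun b => algebraMap ℂ _ (b.1 n) := by
  simpa [evH] using Rat.poly (X := X) (MvPolynomial.C (MvPolynomial.X n))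

lemma Rat.const (c : ℂ) : X.Rat fun _ => algebraMap ℂ _ c := by
  simpa [evH] using Rat.poly (X := X) (MvPolynomial.C (MvPolynomial.C c))

lemma Rat.add (hf : X.Rat f) (hg : X.Rat g) : X.Rat fun b => f b + g b :=
  let ⟨p, q, h⟩ := hf
  let ⟨p', q', h'⟩ := hg
  ⟨p * q' + q * p', q * q', fun b => by
    simp only [map_mul, map_add, (h b).2, (h' b).2, div_add_div _ _ (h b).1 (h' b).1, and_true]
    exact mul_ne_zero (h b).1 (h' b).1⟩

lemma Rat.mul (hf : X.Rat f) (hg : X.Rat g) : X.Rat fun b => f b * g b :=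
  let ⟨p, q, h⟩ := hf
  let ⟨p', q', h'⟩ := hg
  ⟨p * p', q * q', fun b => by
    simp only [map_mul, (h b).2, (h' b).2, div_mul_div_comm, and_true]
    exact mul_ne_zero (h b).1 (h' b).1⟩

lemma Rat.sub (hf : X.Rat f) (hg : X.Rat g) : X.Rat fun b => f b - g b := by
  simpa [sub_eq_add_neg] using hf.add ((Rat.const (-1)).mul hg)

lemma Rat.inv (hf : X.Rat f) (h0 : ∀ b, f b ≠ 0) : X.Rat fun b => (f b)⁻¹ :=
  let ⟨p, q, h⟩ := hf
  ⟨q, p, fun b => ⟨fun e => h0 b (by rw [(h b).2, e, zero_div]), by simp only [(h b).2, inv_div]⟩⟩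

lemma Rat.all {ι : ∀ b, E →ₐ[ℂ] (X.C b).K} {S : Set E} (hS : IntermediateField.adjoin ℂ S = ⊤)
    (h : ∀ s ∈ S, X.Rat fun b => ι b s) (f : E) : X.Rat fun b => ι b f := by
  have hf : f ∈ IntermediateField.adjoin ℂ S := hS.ge IntermediateField.mem_top
  induction hf using IntermediateField.adjoin_induction with
  | mem s hs => exact h s hs
  | algebraMap c => simpa using Rat.const c
  | add a b _ _ ha hb => simpa using ha.add hb
  | inv a _ ha =>
    rcases eq_or_ne a 0 with rfl | a0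
    · simpa using ha
    · simpa using ha.inv fun b => by simpa using a0
  | mul a b _ _ ha hb => simpa using ha.mul hb

lemma fixedPart_of {J : Type} {r : ℕ} (e : Fin r ≃ J) (F : J → Curve) (φ : ∀ j, X.MapTo (F j))
    (om : ∀ j, regular (F j).K)
    (h : ∀ b, LinearIndependent ℂ fun j => pull ((φ j).ι b) (om j)) : X.FixedPart r :=
  ⟨F ∘ e, fun j => φ (e j), fun j => om (e j), fun b => (h b).comp e e.injective⟩

end Family

end Pool.Agent.Lib.MP_13404a_ag
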