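import Pool.Agent.Lib.MP_13404a_ag.Ell

/-!
Spaces of functions with bounded poles on the elliptic curve.
-/

open Polynomial Module

namespace Pool.Agent.Lib.MP_13404a_ag

open Pool.Agent.Lib.MP_15f242_ag

lemma mem_degLT {n : ℕ} {p : ℂ[X]} : p ∈ degreeLT ℂ n ↔ p = 0 ∨ p.natDegree < n := by
  rcases eq_or_ne p 0 with rfl | hp
  · simp
  · simp [mem_degreeLT, hp, natDegree_lt_iff_degree_lt hp]

lemma dim_of_param {V : Type*} [AddCommGroup V] [Module ℂ V] {a b : ℕ} (Λ : ℂ[X] × ℂ[X] →ₗ[ℂ] V)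
    (hΛ : Function.Injective Λ) {W : Submodule ℂ V}
    (h : ∀ v, v ∈ W ↔ ∃ p ∈ degreeLT ℂ a, ∃ q ∈ degreeLT ℂ b, v = Λ (p, q)) :
    FiniteDimensional ℂ W ∧ finrank ℂ W = a + b := by
  let f := Λ ∘ₗ (degreeLT ℂ a).subtype.prodMap (degreeLT ℂ b).subtype
  have hf : Function.Injective f := hΛ.comp (Subtype.val_injective.prodMap Subtype.val_injective)
  have e : W = LinearMap.range f := Submodule.ext fun v => (h v).trans
    ⟨fun ⟨p, hp, q, hq, e⟩ => ⟨(⟨p, hp⟩, ⟨q, hq⟩), e.symm⟩,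
      fun ⟨⟨p, q⟩, e⟩ => ⟨p, p.2, q, q.2, e.symm⟩⟩
  have h1 := fun n => (degreeLTEquiv ℂ n).symm.finiteDimensional
  have h2 := h1 a
  have h3 := h1 b
  rw [e]
  refine ⟨inferInstance, ?_⟩
  rw [LinearMap.finrank_range_of_inj hf, finrank_prod, (degreeLTEquiv ℂ a).finrank_eq,
    (degreeLTEquiv ℂ b).finrank_eq]
  simp

variable {E : Type} [Field E] [Algebra ℂ E]

/-- The function `p(w) + q(w) x`. -/
noncomputable def lam (w x : E) : ℂ[X] × ℂ[X] →ₗ[ℂ] E :=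
  (aeval w).toLinearMap.coprod (LinearMap.mulRight ℂ x ∘ₗ (aeval w).toLinearMap)

lemma lam_apply (w x : E) (p q : ℂ[X]) : lam w x (p, q) = aeval w p + aeval w q * x := rfl

/-- An inflectional tangent. -/
noncomputable def hh {A : Type} [CommRing A] [Algebra ℂ A] (ζ : ℂ) (w x : A) : A :=
  x + algebraMap ℂ A (2 * ζ - 1) * w + algebraMap ℂ A (ζ - 1)

variable [FF ℂ E]

/-- Functions with pole orders bounded by `d`. -/
noncomputable def LL (d : Pt ℂ E → ℤ) : Submodule ℂ E := ⨅ Q, filk Q (d Q)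

lemma mem_LL {d : Pt ℂ E → ℤ} {φ : E} : φ ∈ LL d ↔ ∀ Q, φ ∈ fil Q (d Q) := by
  simp [LL]

lemma sq_LL {d : Pt ℂ E → ℤ} {f : E} (hf : f ≠ 0)
    (h : ∀ Q, po Q f = 2 * d Q - 1 ∨ po Q f = 2 * d Q) (φ : E) :
    (∀ Q : Pt ℂ E, φ ^ 2 * f⁻¹ ∈ fil Q 1) ↔ φ ∈ LL d := by
  rw [mem_LL]
  rcases eq_or_ne φ 0 with rfl | h0
  · simp
  refine forall_congr' fun Q => ?_
  rw [mem_fil h0, mem_fil (mul_ne_zero (pow_ne_zero 2 h0) (inv_ne_zero hf)),
    po_mul Q (pow_ne_zero 2 h0) (inv_ne_zero hf), po_pow, po_inv]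
  have := h Q
  push_cast
  omega

open Classical in
/-- The divisor `n ∞`. -/
noncomputable def d0 (w : E) (n : ℕ) (Q : Pt ℂ E) : ℤ := if w ∈ Q.1 then 0 else n

open Classical in
/-- The divisor `n ∞ - P`, `P` the zero of `f`. -/
noncomputable def d1 (w f : E) (n : ℕ) (Q : Pt ℂ E) : ℤ :=
  if w ∈ Q.1 then (if Vl Q f 0 then -1 else 0) else n

namespace EL

variable {j : RatFunc ℂ →ₐ[ℂ] E} {w x : E} {D : Derivation ℂ E E} (h : EL j w x D) {Q : Pt ℂ E}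

include h

omit [FF ℂ E] in
lemma lam_inj : Function.Injective (lam w x) :=
  (injective_iff_map_eq_zero _).2 fun ⟨_, _⟩ e => Prod.ext (h.ind e).1 (h.ind e).2

lemma lam_fin (hw : w ∈ Q.1) (p q : ℂ[X]) : lam w x (p, q) ∈ Q.1 := by
  obtain ⟨c, hc⟩ := exists_vl hw
  exact add_mem (hc.aeval p).mem (mul_mem (hc.aeval q).mem (h.x_mem hw))

lemma lam_inf (hw : w ∉ Q.1) {p q : ℂ[X]} {n : ℕ} : lam w x (p, q) ∈ fil Q n ↔
    p ∈ degreeLT ℂ (n / 2 + 1) ∧ q ∈ degreeLT ℂ ((n - 1) / 2) := by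
  obtain ⟨-, h1, h2⟩ := h.ord_inf hw
  have x0 : x ≠ 0 := h.quad.ne_zero
  have hp := po_aeval (f := w) (P := Q) (by omega) p
  have hq : q ≠ 0 → aeval w q * x ≠ 0 ∧ po Q (aeval w q * x) = q.natDegree * 2 + 3 := fun e => by
    obtain ⟨h3, h4⟩ := po_aeval (f := w) (P := Q) (by omega) q e
    exact ⟨mul_ne_zero h3 x0, by rw [po_mul Q h3 x0, h4, h1, h2]⟩
  rw [h1] at hp
  rw [lam_apply, mem_degLT, mem_degLT]
  rcases eq_or_ne p 0 with rfl | p0 <;> rcases eq_or_ne q 0 with rfl | q0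
  · simp
  · simp only [map_zero, zero_add, mem_fil (hq q0).1, (hq q0).2, q0, true_or, false_or, true_and]
    omega
  · simp only [map_zero, zero_mul, add_zero, mem_fil (hp p0).1, (hp p0).2, p0, true_or, false_or,
      and_true]
    omega
  obtain ⟨h3, h4⟩ := hp p0
  obtain ⟨h5, h6⟩ := hq q0
  simp only [p0, q0, false_or]
  rcases lt_or_ge (po Q (aeval w p)) (po Q (aeval w q * x)) with h7 | h7
  · obtain ⟨h8, h9⟩ := po_add h3 h5 h7
    rw [mem_fil h8, h9]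
    omega
  · obtain ⟨h8, h9⟩ := po_add (P := Q) h5 h3 (by omega)
    rw [add_comm, mem_fil h8, h9]
    omega

omit [FF ℂ E] in
lemma exists_inf : ∃ Q : Pt ℂ E, w ∉ Q.1 := exists_pole h.trans

lemma mem_d0 {n : ℕ} {φ : E} : φ ∈ LL (d0 w n) ↔
    ∃ p ∈ degreeLT ℂ (n / 2 + 1), ∃ q ∈ degreeLT ℂ ((n - 1) / 2), φ = lam w x (p, q) := by
  rw [mem_LL]
  constructor
  · intro h1
    obtain ⟨p, q, rfl⟩ := h.poly (φ := φ) fun Q hQ => by simpa [d0, hQ, mem_fil_zero] using h1 Q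
    obtain ⟨Q, hQ⟩ := h.exists_inf
    have := (h.lam_inf hQ (p := p) (q := q) (n := n)).1 (by simpa [d0, hQ, lam_apply] using h1 Q)
    exact ⟨p, this.1, q, this.2, rfl⟩
  · rintro ⟨p, hp, q, hq, rfl⟩ Q
    by_cases hQ : w ∈ Q.1
    · simpa [d0, hQ, mem_fil_zero] using h.lam_fin hQ p q
    · simpa [d0, hQ] using (h.lam_inf hQ).2 ⟨hp, hq⟩

lemma dim_d0 (n : ℕ) : FiniteDimensional ℂ (LL (d0 w n)) ∧
    finrank ℂ (LL (d0 w n)) = n / 2 + 1 + (n - 1) / 2 :=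
  dim_of_param _ h.lam_inj fun _ => h.mem_d0

lemma vl_eqn {a b : ℂ} (h1 : Vl Q w a) (h2 : Vl Q x b) : b ^ 2 - b = a ^ 3 :=
  ((h2.pow 2).sub h2).unique (h.eqn ▸ h1.pow 3)

lemma po_hh (ζ : ℂ) (hw : w ∉ Q.1) : hh ζ w x ≠ 0 ∧ po Q (hh ζ w x) = 3 := by
  obtain ⟨-, h1, h2⟩ := h.ord_inf hw
  have h3 : algebraMap ℂ E (2 * ζ - 1) * w + algebraMap ℂ E (ζ - 1) ∈ fil Q 2 :=
    add_mem (mul_fil (Q.1.algebraMap_mem _) (mem_fil_of h1.le))
      (fil_of_mem (Q.1.algebraMap_mem _) (by omega))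
  rw [hh, add_assoc, add_comm, ← h2]
  by_cases e : algebraMap ℂ E (2 * ζ - 1) * w + algebraMap ℂ E (ζ - 1) = 0
  · rw [e, zero_add]
    exact ⟨h.quad.ne_zero, rfl⟩
  · exact po_add e h.quad.ne_zero (by have := (mem_fil e).1 h3; omega)

variable {ζ : ℂ} (hζ : ζ ^ 2 - ζ + 1 = 0)

include hζ

lemma flex (hw : w ∈ Q.1) (h0 : Vl Q (hh ζ w x) 0) :
    Vl Q w (-1) ∧ Vl Q x ζ ∧ po Q (hh ζ w x) = -3 := by
  obtain ⟨a, ha⟩ := exists_vl hw
  obtain ⟨b, hb⟩ := exists_vl (h.x_mem hw)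
  have h1 := h.vl_eqn ha hb
  have h2 := ((hb.add ((Vl.const (2 * ζ - 1)).mul ha)).add (Vl.const (ζ - 1))).unique h0
  have h3 : (a + 1) ^ 3 = 0 := by
    linear_combination (b - (2 * ζ - 1) * a - ζ) * h2 - h1 + (2 * a + 1) ^ 2 * hζ
  obtain rfl : a = -1 := eq_neg_of_add_eq_zero_left (pow_eq_zero_iff three_ne_zero |>.1 h3)
  obtain rfl : ζ = b := by linear_combination -h2
  have h4 : 2 * ζ - 1 ≠ 0 := fun e => by
    have : (3 : ℂ) = 0 := by linear_combination 4 * hζ - (2 * ζ - 1) * e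
    norm_num at this
  refine ⟨ha, hb, ?_⟩
  have h5 := (hb.sub ((Vl.const (2 * ζ - 1)).mul ha)).sub (Vl.const ζ)
  obtain ⟨h6, h7⟩ := h5.po_zero (by convert h4 using 1; ring)
  have h8 : Vl Q (w + 1) 0 := by simpa using ha.add Vl.one
  obtain ⟨h9, h10⟩ := Vl.simple (h.ord Q) h8 (c := 2 * ζ - 1)
    (by simpa [h.Dw] using ((Vl.nat 2).mul hb).sub Vl.one) h4
  have e : hh ζ w x * (x - algebraMap ℂ E (2 * ζ - 1) * w - algebraMap ℂ E ζ) = (w + 1) ^ 3 := by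
    have := congrArg (algebraMap ℂ E) hζ
    simp only [hh, map_add, map_sub, map_mul, map_pow, map_one, map_zero, map_ofNat] at this ⊢
    linear_combination h.eqn - (2 * w + 1) ^ 2 * this
  have h11 : hh ζ w x ≠ 0 := left_ne_zero_of_mul (e ▸ pow_ne_zero 3 h9)
  have := congrArg (po Q) e
  rw [po_mul Q h11 h6, po_pow, h7, h10] at this
  push_cast at this
  omega

omit hζ in
lemma exists_flex : ∃ Q : Pt ℂ E, w ∈ Q.1 ∧ Vl Q (hh ζ w x) 0 := by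
  obtain ⟨Q, hQ⟩ := h.exists_inf
  obtain ⟨P, hP⟩ := exists_zero (trans_of_po (P := Q) (f := hh ζ w x)
    (by rw [(h.po_hh ζ hQ).2]; omega)) 0
  refine ⟨P, by_contra fun e => ?_, hP⟩
  have := mem_iff_po.1 hP.mem
  rw [(h.po_hh ζ e).2] at this
  omega

lemma dim_d1 (n : ℕ) : FiniteDimensional ℂ (LL (d1 w (hh ζ w x) n)) ∧
    finrank ℂ (LL (d1 w (hh ζ w x) n)) = n / 2 + (n - 1) / 2 := by
  let T : ℂ[X] × ℂ[X] →ₗ[ℂ] ℂ[X] × ℂ[X] :=
    ((LinearMap.mulLeft ℂ (X - C (-1))).coprod (-(ζ • LinearMap.id))).prod (LinearMap.snd ℂ _ _)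
  have hT : ∀ p q, T (p, q) = ((X - C (-1)) * p - ζ • q, q) := fun p q => by
    simp [T, sub_eq_add_neg]
  have h1 : Function.Injective T := (injective_iff_map_eq_zero _).2 fun ⟨p, q⟩ e => by
    rw [hT, Prod.mk_eq_zero] at e
    obtain ⟨e, rfl⟩ := e
    rw [smul_zero, sub_zero, mul_eq_zero] at e
    exact Prod.ext (e.resolve_left (X_sub_C_ne_zero _)) rfl
  have hv : ∀ {Q : Pt ℂ E} (p q : ℂ[X]), w ∈ Q.1 → Vl Q (hh ζ w x) 0 →
      Vl Q (lam w x (p, q)) (p.eval (-1) + q.eval (-1) * ζ) := fun p q hw h0 =>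
    let ⟨h2, h3, _⟩ := h.flex hζ hw h0
    (h2.aeval p).add ((h2.aeval q).mul h3)
  have hd : ∀ p : ℂ[X], (X - C (-1)) * p ∈ degreeLT ℂ (n / 2 + 1) ↔ p ∈ degreeLT ℂ (n / 2) := by
    intro p
    rcases eq_or_ne p 0 with rfl | p0
    · simp
    rw [mem_degLT, mem_degLT, natDegree_mul (X_sub_C_ne_zero _) p0, natDegree_X_sub_C]
    simp only [mul_eq_zero, X_sub_C_ne_zero, p0, false_or]
    omega
  have hle : degreeLT ℂ ((n - 1) / 2) ≤ degreeLT ℂ (n / 2 + 1) := degreeLT_mono (by omega)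
  refine dim_of_param (lam w x ∘ₗ T) (h.lam_inj.comp h1) fun φ => ⟨fun h2 => ?_, ?_⟩
  · rw [mem_LL] at h2
    obtain ⟨p, hp, q, hq, rfl⟩ := (h.mem_d0 (n := n) (φ := φ)).1 (mem_LL.2 fun Q =>
      fil_mono Q (by unfold d0 d1; split_ifs <;> omega) (h2 Q))
    obtain ⟨Q, h3, h4⟩ := h.exists_flex (ζ := ζ)
    have h5 := (hv p q h3 h4).unique (Vl.zero_iff.2 (by simpa [d1, h3, h4] using h2 Q))
    obtain ⟨r, hr⟩ := (dvd_iff_isRoot (p := p + ζ • q) (a := -1)).2 (by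
      simpa [mul_comm] using h5)
    refine ⟨r, (hd r).1 (hr ▸ add_mem hp (Submodule.smul_mem _ _ (hle hq))), q, hq, ?_⟩
    rw [LinearMap.comp_apply, hT, ← hr, add_sub_cancel_right]
  · rintro ⟨p, hp, q, hq, rfl⟩
    rw [LinearMap.comp_apply, hT]
    have h2 := mem_LL.1 (h.mem_d0.2 ⟨_, sub_mem ((hd p).2 hp)
      (Submodule.smul_mem _ ζ (hle hq)), q, hq, rfl⟩)
    refine mem_LL.2 fun Q => ?_
    unfold d1
    split_ifs with h3 h4
    · have := hv ((X - C (-1)) * p - ζ • q) q h3 h4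
      refine Vl.zero_iff.1 ?_
      convert this using 1
      simp [mul_comm]
    · simpa [d0, h3] using h2 Q
    · simpa [d0, h3] using h2 Q

end EL

end Pool.Agent.Lib.MP_13404a_ag
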