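import Pool.Agent.Lib.MP_13404a_ag.Fam

/-!
The family of genus `2k + 7 + ε`.
-/

namespace Pool.Agent.Lib.MP_13404a_ag

open Pool.Agent.Lib.MP_15f242_ag MvPolynomial Module

/-- The parameter space. -/
def base (ζ : ℂ) (k : ℕ) : Set (Fin 10 → ℂ) :=
  {b | Dec (b 0) (b 1) (b 2) (b 3) (b 4) ∧ Dec (b 0) (b 5) (b 6) (b 7) (b 8) ∧
    b 9 * ((b 1 - b 5) * ((b 0 ^ 2 - b 0) * ((b 0 - ζ) * ((b 0 ^ 2 - b 0) ^ k - 8)))) = 1}

/-- Equations of `Dec`. -/
noncomputable def decEq (t τ q κ ν : MvPolynomial (Fin 10) ℂ) : Set (MvPolynomial (Fin 10) ℂ) :=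
  {ν ^ 2 - 4 * κ ^ 3, ν ^ 2 * (3 * q * τ - 2 * q - t) - 1,
    ν ^ 2 * (3 * q ^ 2 * τ ^ 2 - q ^ 2 - 2 * q * t) - 1, t - q * τ ^ 3, τ - q - (2 * q * τ - 2)}

lemma decEq_iff (b : Fin 10 → ℂ) (t τ q κ ν : Fin 10) :
    (∀ p ∈ decEq (X t) (X τ) (X q) (X κ) (X ν), eval b p = 0) ↔
      Dec (b t) (b τ) (b q) (b κ) (b ν) := by
  simp only [decEq, Set.mem_insert_iff, Set.mem_singleton_iff, forall_eq_or_imp, forall_eq, map_sub,
    map_mul, map_pow, eval_X, map_ofNat, map_one, sub_eq_zero]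
  exact ⟨fun ⟨h1, h2, h3, h4, h5⟩ => ⟨h1, h2, h3, h4, h5⟩,
    fun ⟨h1, h2, h3, h4, h5⟩ => ⟨h1, h2, h3, h4, h5⟩⟩

lemma base_closed (ζ : ℂ) (k : ℕ) : ∃ S : Set (MvPolynomial (Fin 10) ℂ),
    base ζ k = {b | ∀ p ∈ S, eval b p = 0} := by
  refine ⟨decEq (X 0) (X 1) (X 2) (X 3) (X 4) ∪ (decEq (X 0) (X 5) (X 6) (X 7) (X 8) ∪
    {X 9 * ((X 1 - X 5) * ((X 0 ^ 2 - X 0) * ((X 0 - C ζ) * ((X 0 ^ 2 - X 0) ^ k - 8)))) - 1}),
    Set.ext fun b => ?_⟩
  simp only [Set.mem_ofPred_eq, Set.mem_union, or_imp, forall_and, decEq_iff, base,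
    Set.mem_singleton_iff, forall_eq, map_sub, map_mul, map_pow, eval_X, map_ofNat, map_one, eval_C]
  rw [sub_eq_zero]

lemma base_adm {ζ : ℂ} {k : ℕ} {b : Fin 10 → ℂ} (h : b ∈ base ζ k) :
    b 1 ≠ b 5 ∧ Adm ζ k (b 0) := by
  have := right_ne_zero_of_mul (h.2.2.trans_ne one_ne_zero)
  simp only [mul_ne_zero_iff, sub_ne_zero] at this
  exact ⟨this.1, sub_ne_zero.2 this.2.1, this.2.2.1, this.2.2.2⟩

lemma exists_base {ζ : ℂ} {k : ℕ} {t : ℂ} (h : Adm ζ k t) : ∃ b ∈ base ζ k, b 0 = t := by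
  obtain ⟨τ, τ', h1, h2, h3⟩ := exists_two_roots h.ne
  obtain ⟨q, κ, ν, h4⟩ := exists_dec h.ne h2
  obtain ⟨q', κ', ν', h5⟩ := exists_dec h.ne h3
  exact ⟨![t, τ, q, κ, ν, τ', q', κ', ν',
    ((τ - τ') * ((t ^ 2 - t) * ((t - ζ) * ((t ^ 2 - t) ^ k - 8))))⁻¹],
    ⟨h4, h5, inv_mul_cancel₀ (mul_ne_zero (sub_ne_zero.2 h1) (mul_ne_zero h.ne
      (mul_ne_zero (sub_ne_zero.2 h.flex) (sub_ne_zero.2 h.root))))⟩, rfl⟩

lemma adm_of_der {ζ : ℂ} (hζ : ζ ^ 2 - ζ + 1 = 0) (k : ℕ) {t : ℂ} {δ : Derivation ℤ ℂ ℂ}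
    (h : δ t = 1) : Adm ζ k t := by
  have h1 : δ (t ^ 2 - t) = 2 * t - 1 := by simp [h]
  have h2 : 2 * t - 1 ≠ 0 := fun e => by
    have h3 : δ 2 = 0 := by simpa using δ.map_natCast 2
    simpa [h, h3] using congrArg δ e
  have h3 : t ^ 2 - t ≠ 0 := fun e => h2 (by rw [← h1, e, map_zero])
  refine ⟨h3, fun e => h2 ?_, fun e => ?_⟩
  · rw [← h1, show t ^ 2 - t = -1 by rw [e]; linear_combination hζ]
    simp
  · have h4 : δ 8 = 0 := by simpa using δ.map_natCast 8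
    have h5 := congrArg δ e
    have k0 : k ≠ 0 := by rintro rfl; norm_num at e
    rw [δ.leibniz_pow, h1, h4] at h5
    simp [k0, h2, h3] at h5

theorem main (k : ℕ) {ε : ℕ} (hε : ε ≤ 1) : ∃ X : Family,
    (∀ b, (X.C b).genus = 2 * k + 7 + ε) ∧ X.Varies ∧ X.FixedPart (k + 1 + ε + 3) := by
  obtain ⟨ζ, hζ⟩ : ∃ ζ : ℂ, ζ ^ 2 - ζ + 1 = 0 := by
    obtain ⟨z, hz⟩ := IsAlgClosed.exists_pow_nat_eq (-3 : ℂ) two_pos
    exact ⟨(1 + z) / 2, by linear_combination hz / 4⟩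
  obtain ⟨E, j, w, x, D, hE⟩ := exists_EL
  obtain ⟨Y, i, s, hs⟩ := exists_quad E (hE.fs_not_sq hζ hε k)
  obtain ⟨DY, hY⟩ := exists_der (trans_map i hE.trans) (i (D w))
  choose Cv l y hy using fun b : base ζ k =>
    exists_quad Y (hE.fy_not_sq' hζ hε (base_adm b.2).2 hs)
  choose DK hK using fun b => exists_der (trans_map (l b) (trans_map i hE.trans)) (l b (i (D w)))
  have tw : ∀ b, TW j w x D ζ ε k (b.1 0) i s (l b) (y b) (DK b) := fun b =>
    ⟨hE, hζ, hε, (base_adm b.2).2, hs, hy b, hK b⟩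
  let F : Family :=
    { m := 10
      n := 4
      B := base ζ k
      closed := base_closed ζ k
      I := Ideal.span {X 1 * X 1 - (X 0 ^ 3 + X 1), X 2 * X 2 - fs ζ ε k (X 0) (X 1),
        X 3 * X 3 - X 0 * (X 1 - C (X 0))}
      C := Cv
      x := fun b => ![l b (i w), l b (i x), l b s, y b]
      ker := fun b => by
        rw [(tw b).ker, Ideal.map_span]
        simp [Set.image_insert_eq, fs, fy, hh, MvPolynomial.algebraMap_apply, map_ofNat]
      gen := fun b => (tw b).gen (IntermediateField.subset_adjoin _ _ ⟨0, rfl⟩)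
        (IntermediateField.subset_adjoin _ _ ⟨1, rfl⟩) (IntermediateField.subset_adjoin _ _ ⟨2, rfl⟩)
        (IntermediateField.subset_adjoin _ _ ⟨3, rfl⟩) }
  refine ⟨F, fun b => (tw b).genus, ?_, ?_⟩
  · obtain ⟨t, δ, h⟩ := exists_dual_seq
    choose b hb ht using fun n => exists_base (adm_of_der hζ k ((h n n).trans (if_pos rfl)))
    refine ⟨fun n => ⟨b n, hb n⟩, fun m n hmn => ⟨fun e => ?_⟩⟩
    exact (tw ⟨b n, hb n⟩).not_iso (tw ⟨b m, hb m⟩) (δ m) (by simp [ht, h, hmn])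
      (by simp [ht, h]) e.toAlgHom
  have rw : F.Rat fun b => l b (i w) := Family.Rat.coord 0
  have rx : F.Rat fun b => l b (i x) := Family.Rat.coord 1
  have rs : F.Rat fun b => l b s := Family.Rat.coord 2
  have ry : F.Rat fun b => y b := Family.Rat.coord 3
  have gE : IntermediateField.adjoin ℂ {w, x} = ⊤ := hE.gen
    (IntermediateField.subset_adjoin _ _ (by simp)) (IntermediateField.subset_adjoin _ _ (by simp))
  let mY : F.MapTo Y := ⟨l, Family.Rat.all (S := {i w, i x, s}) (hs.adjoin gE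
    (by rintro _ (rfl | rfl) <;> exact IntermediateField.subset_adjoin _ _ (by simp))
    (IntermediateField.subset_adjoin _ _ (by simp))) (by rintro _ (rfl | rfl | rfl) <;> assumption)⟩
  let m0 : F.MapTo E := ⟨fun b => (l b).comp i, Family.Rat.all gE
    (by rintro _ (rfl | rfl) <;> assumption)⟩
  have hm : ∀ τ q κ ν : Fin 10, (∀ b : base ζ k, Dec (b.1 0) (b.1 τ) (b.1 q) (b.1 κ) (b.1 ν)) →
      ∃ m : F.MapTo E, ∀ b : base ζ k, pull (m.ι b) (eta D w) =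
        (l b (i ((b.1 κ / b.1 ν) • (x + algebraMap ℂ _ (b.1 τ)))) / y b) •
          eta (DK b) (l b (i w)) := fun τ q κ ν hd => by
    choose φ h1 h2 h3 using fun b => (tw b).exists_map (hd b)
    refine ⟨⟨φ, Family.Rat.all gE ?_⟩, h3⟩
    have rw' := rw.inv fun b => (tw b).w_ne
    rintro _ (rfl | rfl)
    · simp only [h1, map_mul, div_eq_mul_inv]
      exact ((Family.Rat.par κ).mul (rx.sub ((Family.Rat.par q).mul (Family.Rat.par τ)))).mul rw'
    · have := (((((Family.Rat.par ν).mul (rx.sub (Family.Rat.par q))).mul ry).mul (rw'.mul rw')).add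
        (Family.Rat.const 1)).mul (Family.Rat.const 2⁻¹)
      simpa only [h2, div_eq_mul_inv, sq, mul_inv, map_one, map_inv₀, map_ofNat] using this
  obtain ⟨m1, hm1⟩ := hm 1 2 3 4 fun b => b.2.1
  obtain ⟨m2, hm2⟩ := hm 5 6 7 8 fun b => b.2.2.1
  obtain ⟨_, hd⟩ := hE.dim_e hζ hε (n := k + 1 + 2 * ε) (by omega)
  let v := finBasisOfFinrankEq ℂ _ (hd.trans (show _ = k + 1 + ε by omega))
  have s2 : s * s = i (fs ζ ε k w x) := by simpa using hs.sq
  have Y0 : DY (i w) ≠ 0 := by simpa [hY] using hE.Dw_ne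
  have hη : eta D w ∈ regular E.K := by
    rw [← one_smul E.K (eta D w), smul_eta_mem hE.Dw_ne]
    simpa using (hE.div_Rg (ι := AlgHom.id ℂ _) rfl (e := 1) (f := 1) (by simp) one_ne_zero
      (d := d0 w 0) (fun Q => by simp [po_one, d0]) 1).2
      (mem_LL.2 fun Q => by simp [d0, mem_fil_zero])
  refine Family.fixedPart_of (finSumFinEquiv (m := k + 1 + ε) (n := 3)).symm
    (Sum.elim (fun _ => Y) fun _ => E)
    (fun a => match a with
      | .inl _ => mY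
      | .inr a => ![m0, m1, m2] a)
    (fun a => match a with
      | .inl a => ⟨(i (v a) / s) • eta DY (i w), (smul_eta_mem Y0).2
          ((hE.div_Rg hY s2 (hE.fs_ne ζ ε k) (hE.tab_s hζ hε) _).2 (v a).2)⟩
      | .inr _ => ⟨eta D w, hη⟩) fun b => ?_
  have h0 := (tw b).Dw_ne
  refine (congrArg (fun f => LinearIndependent ℂ f) (funext ?_)).mp (indep_smul_eta h0
    ((tw b).indep (v.linearIndependent.map' _ (Submodule.ker_subtype _))
      (div_ne_zero b.2.1.ne.2 b.2.1.ne.1) (div_ne_zero b.2.2.1.ne.2 b.2.2.1.ne.1)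
      (base_adm b.2).1))
  rintro (a | a)
  · refine Eq.trans ?_ (pull_eta (l b) h0 _).symm
    rw [hY, ← hK b, mul_assoc, inv_mul_cancel₀ h0]
    simp
  · fin_cases a
    · refine Eq.trans ?_ ((pull_eta ((l b).comp i) h0 1).symm.trans (by rw [one_smul]; rfl))
      simp only [AlgHom.comp_apply]
      rw [← hK b, mul_assoc, inv_mul_cancel₀ h0]
      simp
    · exact (hm1 b).symm
    · exact (hm2 b).symm

end Pool.Agent.Lib.MP_13404a_ag
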