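import Pool.Agent.Lib.MP_13404a_ag.Tower

/-!
Two further maps to the elliptic curve, independence of the pulled-back forms, and variation.
-/

open Polynomial Module

namespace Pool.Agent.Lib.MP_13404a_ag

open Pool.Agent.Lib.MP_15f242_ag

/-- Coefficients of an identity `X ^ 2 - X = ν ^ 2 ((X - q) ^ 2 (X - t) - (X - q τ) ^ 3)`. -/
structure Dec (t τ q κ ν : ℂ) : Prop where
  h1 : ν ^ 2 = 4 * κ ^ 3
  h2 : ν ^ 2 * (3 * q * τ - 2 * q - t) = 1
  h3 : ν ^ 2 * (3 * q ^ 2 * τ ^ 2 - q ^ 2 - 2 * q * t) = 1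
  h4 : t = q * τ ^ 3
  h5 : τ - q = 2 * q * τ - 2

lemma Dec.ne {t τ q κ ν : ℂ} (h : Dec t τ q κ ν) : ν ≠ 0 ∧ κ ≠ 0 := by
  have h1 : ν ≠ 0 := fun e => by simpa [e] using h.h2
  exact ⟨h1, fun e => h1 (by simpa [e] using h.h1)⟩

lemma exists_dec {t τ : ℂ} (ht : t ^ 2 - t ≠ 0) (h : τ ^ 3 * (τ + 2) = t * (2 * τ + 1)) :
    ∃ q κ ν, Dec t τ q κ ν := by
  have h1 : 2 * τ + 1 ≠ 0 := fun e => by
    have : (3 : ℂ) = 0 := by
      linear_combination (-16) * h + (8 * τ ^ 3 + 12 * τ ^ 2 - 6 * τ + 3 - 16 * t) * e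
    norm_num at this
  have h2 : τ + 2 ≠ 0 := fun e => ht (by
    linear_combination ((t - 1) / 3) * h + ((t - 1) / 3) * (2 * t - τ ^ 3) * e)
  have h3 : τ - 1 ≠ 0 := fun e => ht (by
    linear_combination (-t / 3) * h + (t / 3) * (τ ^ 3 + 3 * τ ^ 2 + 3 * τ + 3 - 2 * t) * e)
  obtain ⟨ν, hν⟩ := IsAlgClosed.exists_pow_nat_eq (-(2 * τ + 1) / ((τ - 1) ^ 2 * (τ + 2) ^ 2))
    two_pos
  obtain ⟨κ, hκ⟩ := IsAlgClosed.exists_pow_nat_eq (ν ^ 2 / 4) three_pos
  have h4 : t = (τ + 2) / (2 * τ + 1) * τ ^ 3 := by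
    rw [div_mul_eq_mul_div, eq_div_iff h1]; linear_combination -h
  refine ⟨(τ + 2) / (2 * τ + 1), κ, ν, by linear_combination (-4) * hκ, ?_, ?_, h4, ?_⟩
  · rw [hν, h4]; field_simp; ring
  · rw [hν, h4]; field_simp; ring
  · linear_combination (-1) * div_mul_cancel₀ (τ + 2) h1

lemma exists_two_roots {t : ℂ} (ht : t ^ 2 - t ≠ 0) : ∃ τ τ', τ ≠ τ' ∧
    τ ^ 3 * (τ + 2) = t * (2 * τ + 1) ∧ τ' ^ 3 * (τ' + 2) = t * (2 * τ' + 1) := by
  obtain ⟨τ, h1⟩ := IsAlgClosed.exists_root (X ^ 4 + C 2 * X ^ 3 + C (-2 * t) * X + C (-t))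
    (by rw [show degree _ = 4 by compute_degree!]; simp)
  obtain ⟨σ, h2⟩ := IsAlgClosed.exists_root (X ^ 3 + C (τ + 2) * X ^ 2 + C (τ ^ 2 + 2 * τ) * X +
    C (τ ^ 3 + 2 * τ ^ 2 - 2 * t)) (by rw [show degree _ = 3 by compute_degree!]; simp)
  simp only [IsRoot, eval_add, eval_mul, eval_pow, eval_X, eval_C] at h1 h2
  refine ⟨τ, σ, ?_, by linear_combination h1, by linear_combination h1 + (σ - τ) * h2⟩
  rintro rfl
  have h3 : t = 2 * τ ^ 3 + 3 * τ ^ 2 := by linear_combination (-1 / 2) * h2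
  have h4 : (τ * (τ + 1)) ^ 2 = 0 := by
    linear_combination (-1 / 3) * h1 - (2 * τ + 1) / 3 * h3
  refine ht ?_
  rw [h3]
  linear_combination (2 * τ + 3) * (2 * τ - 1) * h4

variable {E Y K : Type} [Field E] [Algebra ℂ E] [Field Y] [Algebra ℂ Y] [Field K] [Algebra ℂ K]
  {j : RatFunc ℂ →ₐ[ℂ] E} {w x : E} {D : Derivation ℂ E E} {ζ t : ℂ} {ε k : ℕ}

lemma pull_eta [FF ℂ K] (ι : E →ₐ[ℂ] K) {DK : Derivation ℂ K K} {u : K} (hu : DK u ≠ 0) (f : E) :
    pull ι (f • eta D w) = (ι f * (ι (D w))⁻¹ * DK (ι w)) • eta DK u := by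
  rw [eta, smul_smul, pull_smul_D, D_eq hu, smul_smul, map_mul, map_inv₀]

/-- A derivation that is regular everywhere does not move the branch point. -/
lemma der_t_eq_zero [FF ℂ K] {D : Derivation ℤ K K} {δ : ℂ → ℂ}
    (hc : ∀ c, D (algebraMap ℂ K c) = algebraMap ℂ K (δ c))
    (hD : ∀ P : Pt ℂ K, ∀ f ∈ P.1, D f ∈ P.1) {ι : E →ₐ[ℂ] K} [FF ℂ E] {DE : Derivation ℂ E E}
    (h : EL j w x DE) {y : K} (hy : y * y = ι (fy t w x)) (ht : t ^ 2 - t ≠ 0) : δ t = 0 := by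
  have : CharZero K := charZero_of_injective_algebraMap (algebraMap ℂ K).injective
  have e1 : ι x ^ 2 - ι x = ι w ^ 3 := by simpa using congrArg ι h.eqn
  have e2 : (2 * ι x - 1) * D (ι x) = 3 * ι w ^ 2 * D (ι w) := by
    have := congrArg D e1
    simp only [map_sub, Derivation.leibniz_pow, smul_eq_mul, nsmul_eq_mul] at this
    push_cast at this
    linear_combination this
  simp only [fy, map_mul, map_sub, AlgHom.commutes] at hy
  have e3 : 2 * y * D y = ι w * (D (ι x) - algebraMap ℂ K (δ t)) +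
      (ι x - algebraMap ℂ K t) * D (ι w) := by
    have := congrArg D hy
    simp only [map_sub, Derivation.leibniz, smul_eq_mul, hc] at this
    linear_combination this
  set c := (2 * ι x - 1) * D (ι w) - 4 / 3 * ι w * D (ι x) with hc'
  have e4 : D (ι w) = (2 * ι x - 1) * c := by
    rw [hc']; linear_combination (-4 * D (ι w)) * e1 + (4 / 3 * ι w) * e2
  have e5 : D (ι x) = 3 * ι w ^ 2 * c := by
    rw [hc']; linear_combination (-4 * D (ι x)) * e1 + (2 * ι x - 1) * e2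
  have hvl : ∀ {P : Pt ℂ K} {f : E} {a : ℂ}, Vl (res ι P) f a → Vl P (ι f) a := by
    intro P f a hf
    obtain ⟨e, he, h3⟩ := exists_e ι P
    unfold Vl at hf ⊢
    rw [← ι.commutes, ← map_sub]
    rcases eq_or_ne (f - algebraMap ℂ E a) 0 with e0 | e0
    · simp [e0]
    · have := (mem_fil e0).1 hf
      exact mem_fil_of (by rw [h3]; nlinarith)
  obtain ⟨c0, hc0⟩ := const_of_regular (k := ℂ) (x := c) fun P => by
    by_cases hw : w ∈ (res ι P).1
    · have hx := mem_res.1 (h.x_mem hw)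
      have h43 : (4 / 3 : K) ∈ P.1 := by simpa [map_ofNat] using P.1.algebraMap_mem (4 / 3)
      exact sub_mem (mul_mem (sub_mem (mul_mem (ofNat_mem _ 2) hx) (one_mem _)) (hD P _ hw))
        (mul_mem (mul_mem h43 hw) (hD P _ hx))
    · obtain ⟨-, h1, h2⟩ := h.ord_inf hw
      have x0 : x ≠ 0 := h.quad.ne_zero
      have hu := hvl (Vl.zero_iff.2 (mem_fil_of (x := w * x⁻¹) (P := res ι P) (by
        rw [po_mul _ h.w_ne (inv_ne_zero x0), po_inv]; omega)))
      have hr := hvl (Vl.zero_iff.2 (mem_fil_of (x := x⁻¹) (P := res ι P) (by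
        rw [po_inv]; omega)))
      refine mem_fil_zero.1 ((((Vl.nat 2).mul hr).sub Vl.one).cancel (by norm_num) ?_)
      convert mem_fil_zero.2 (hD P _ hu.mem) using 1
      have : ι x ≠ 0 := by simpa using x0
      rw [map_mul, map_inv₀, D.leibniz, D.leibniz_inv, e4, e5]
      simp only [smul_eq_mul]
      field_simp
      linear_combination (-3 * c) * e1
  have hy0 : ∀ {P : Pt ℂ K}, Vl P (y * y) 0 → Vl P (2 * y * D y) 0 := by
    intro P h1
    rw [Vl.zero_iff] at h1 ⊢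
    have : y ∈ fil P (-1) := by
      rcases eq_or_ne y 0 with e | e
      · simp [e]
      · rw [mem_fil (mul_ne_zero e e), po_mul P e e] at h1
        exact mem_fil_of (by omega)
    exact fil_mul (mul_fil (ofNat_mem _ 2) this) (hD P _ (mem_of_fil this (by omega)))
  have key : ∀ (Q : Pt ℂ E) a b, Vl Q w a → Vl Q x b → a * (b - t) = 0 →
      a * (3 * a ^ 2 * c0 - δ t) + (b - t) * ((2 * b - 1) * c0) = 0 := fun Q a b ha hb h0 => by
    obtain ⟨P, rfl⟩ := res_surj ι Q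
    have h1 := hvl ha
    have h2 := hvl hb
    have h3 := hy0 (hy ▸ h0 ▸ h1.mul (h2.sub (Vl.const t)))
    rw [e3, e4, e5, ← hc0] at h3
    exact ((h1.mul ((((Vl.nat 3).mul (h1.pow 2)).mul (Vl.const c0)).sub (Vl.const _))).add
      ((h2.sub (Vl.const t)).mul ((((Vl.nat 2).mul h2).sub Vl.one).mul (Vl.const c0)))).unique h3
  have fin : ∀ b, ∃ (Q : Pt ℂ E) (a : ℂ), Vl Q w a ∧ Vl Q x b := fun b => by
    obtain ⟨Q, hb⟩ := exists_zero h.x_trans b
    obtain ⟨a, ha⟩ := exists_vl (P := Q) (f := w) (by_contra fun e => h.x_not_mem e hb.mem)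
    exact ⟨Q, a, ha, hb⟩
  obtain ⟨Q, a, ha, hb⟩ := fin 0
  obtain rfl : a = 0 := by simpa using (h.vl_eqn ha hb).symm
  have h1 := key Q 0 0 ha hb (by simp)
  have t0 : t ≠ 0 := fun e => ht (by simp [e])
  obtain rfl : c0 = 0 := by simpa [t0] using h1
  obtain ⟨Q, a, ha, hb⟩ := fin t
  have a0 : a ≠ 0 := fun e => ht (by simpa [e] using h.vl_eqn ha hb)
  simpa [a0] using key Q a t ha hb (by simp)

namespace TW

variable {i : E →ₐ[ℂ] Y} {s : Y} {l : Y →ₐ[ℂ] K} {y : K} {DK : Derivation ℂ K K}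
  (h : TW j w x D ζ ε k t i s l y DK)

include h

lemma gen {M : IntermediateField ℂ K} (h1 : l (i w) ∈ M) (h2 : l (i x) ∈ M) (h3 : l s ∈ M)
    (h4 : y ∈ M) : M = ⊤ := by
  refine h.qy.adjoin (S := {i w, i x, s}) (h.qs.adjoin (S := {w, x}) (h.el.gen ?_ ?_) ?_ ?_) ?_ h4
  · exact IntermediateField.subset_adjoin _ _ (by simp)
  · exact IntermediateField.subset_adjoin _ _ (by simp)
  · rintro _ (rfl | rfl) <;> exact IntermediateField.subset_adjoin _ _ (by simp)
  · exact IntermediateField.subset_adjoin _ _ (by simp)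
  · rintro _ (rfl | rfl | rfl) <;> assumption

variable [FF ℂ E] [FF ℂ K]

lemma exists_map {τ q κ ν : ℂ} (hd : Dec t τ q κ ν) : ∃ φ : E →ₐ[ℂ] K,
    φ w = algebraMap ℂ K κ * (l (i x) - algebraMap ℂ K (q * τ)) / l (i w) ∧
    φ x = (algebraMap ℂ K ν * (l (i x) - algebraMap ℂ K q) * y / l (i w) ^ 2 + 1) / 2 ∧
    pull φ (eta D w) = (l (i ((κ / ν) • (x + algebraMap ℂ E τ))) / y) • eta DK (l (i w)) := by
  have : CharZero K := charZero_of_injective_algebraMap (algebraMap ℂ K).injective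
  have w0 := h.w_ne
  have y0 := h.qy.ne_zero
  have x0 : ∀ c, l (i x) - algebraMap ℂ K c ≠ 0 := fun c => by
    simpa using (map_ne_zero (l.comp i)).2 (h.el.ne_zeros 0 c 0).1
  have n0 : algebraMap ℂ K ν ≠ 0 := by simpa using hd.ne.1
  have k0 : algebraMap ℂ K κ ≠ 0 := by simpa using hd.ne.2
  have e1 : l (i x) ^ 2 - l (i x) = l (i w) ^ 3 := by simpa using congrArg (l.comp i) h.el.eqn
  have e2 := h.y_sq
  have e3 : DK (l (i w)) = 2 * l (i x) - 1 := by simp [h.hD, h.el.Dw, map_ofNat]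
  have e4 : DK (l (i x)) = 3 * l (i w) ^ 2 := by
    simpa [h.el.Dx, map_ofNat] using der_comm (l.comp i) h.el.trans h.hD x
  have h1 := congrArg (algebraMap ℂ K) hd.h1
  have h2 := congrArg (algebraMap ℂ K) hd.h2
  have h3 := congrArg (algebraMap ℂ K) hd.h3
  have h4 := congrArg (algebraMap ℂ K) hd.h4
  have h5 := congrArg (algebraMap ℂ K) hd.h5
  simp only [fy, map_mul, map_sub, map_pow, map_ofNat, map_one, AlgHom.commutes]
    at e2 h1 h2 h3 h4 h5
  have e5 : DK (algebraMap ℂ K κ * (l (i x) - algebraMap ℂ K (q * τ)) / l (i w)) =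
      algebraMap ℂ K κ * (l (i x) - algebraMap ℂ K q) * (l (i x) + algebraMap ℂ K τ) /
        l (i w) ^ 2 := by
    rw [DK.leibniz_div, DK.leibniz, map_sub, DK.map_algebraMap, DK.map_algebraMap, e3, e4, map_mul]
    simp only [smul_eq_mul]
    field_simp
    linear_combination (-3 * algebraMap ℂ K κ) * e1 - (algebraMap ℂ K κ * l (i x)) * h5
  have e6 : DK (algebraMap ℂ K κ * (l (i x) - algebraMap ℂ K (q * τ)) / l (i w)) ≠ 0 := by
    rw [e5]
    exact div_ne_zero (mul_ne_zero (mul_ne_zero k0 (x0 q)) (by simpa using x0 (-τ)))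
      (pow_ne_zero 2 w0)
  obtain ⟨φ, a1, a2⟩ := h.el.lift (trans_of_der e6)
    (V := (algebraMap ℂ K ν * (l (i x) - algebraMap ℂ K q) * y / l (i w) ^ 2 + 1) / 2) (by
      rw [map_mul]
      field_simp
      linear_combination (algebraMap ℂ K ν ^ 2 * (l (i x) - algebraMap ℂ K q) ^ 2) * e2 +
        l (i w) * e1 + (l (i w) * (l (i x) - algebraMap ℂ K q * algebraMap ℂ K τ) ^ 3) * h1 +
        (l (i w) * l (i x) ^ 2) * h2 - (l (i w) * l (i x)) * h3 -
        (l (i w) * algebraMap ℂ K ν ^ 2 * algebraMap ℂ K q ^ 2) * h4)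
  refine ⟨φ, a1, a2, ?_⟩
  rw [← one_smul E (eta D w), pull_eta φ h.Dw_ne, a1, e5, h.el.Dw]
  congr 1
  have := x0 q
  simp only [map_sub, map_mul, map_one, map_ofNat, a2, Algebra.smul_def, map_div₀, map_add,
    AlgHom.commutes]
  field_simp
  ring

omit [FF ℂ K] in
lemma indep {J : Type} [Fintype J] {b : J → E} (hb : LinearIndependent ℂ b) {c c' τ τ' : ℂ}
    (hc : c ≠ 0) (hc' : c' ≠ 0) (hτ : τ ≠ τ') : LinearIndependent ℂ (Sum.elim
      (fun a => l (i (b a)) / l s) ![1, l (i (c • (x + algebraMap ℂ E τ))) / y,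
        l (i (c' • (x + algebraMap ℂ E τ'))) / y]) := by
  let v : J ⊕ Fin 3 → E × E × E × E := Sum.elim (fun a => (0, b a, 0, 0))
    ![(1, 0, 0, 0), (0, 0, c • (x + algebraMap ℂ E τ), 0), (0, 0, c' • (x + algebraMap ℂ E τ'), 0)]
  have hv : LinearIndependent ℂ v := Fintype.linearIndependent_iff.2 fun g hg => by
    have h1 := congrArg (fun z => z.1) hg
    have h2 := congrArg (fun z => z.2.1) hg
    have h3 := congrArg (fun z => z.2.2.1) hg
    simp [v, Fin.sum_univ_three, Prod.fst_sum, Prod.snd_sum] at h1 h2 h3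
    obtain ⟨h4, h5⟩ := h.el.ind (p := C (g (.inr 1) * c * τ + g (.inr 2) * c' * τ'))
      (q := C (g (.inr 1) * c + g (.inr 2) * c')) (by
        simp only [Algebra.smul_def, aeval_C, map_add, map_mul] at h3 ⊢
        linear_combination h3)
    rw [C_eq_zero] at h4 h5
    have h6 : g (.inr 1) * (c * (τ - τ')) = 0 := by linear_combination h4 - τ' * h5
    have h7 : g (.inr 2) * (c' * (τ - τ')) = 0 := by linear_combination τ * h5 - h4
    have h8 := sub_ne_zero.2 hτ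
    rintro (a | a)
    · exact Fintype.linearIndependent_iff.1 hb _ h2 a
    · fin_cases a
      · exact h1
      · simpa [hc, h8] using h6
      · simpa [hc', h8] using h7
  refine (congrArg (fun f => LinearIndependent ℂ f) (funext ?_)).mp (hv.map' _ (LinearMap.ker_eq_bot.2 h.psi_inj))
  rintro (a | a)
  · simp [v, psi_apply]
  · fin_cases a <;> simp [v, psi_apply]

lemma not_iso {K' : Type} [Field K'] [Algebra ℂ K'] {t' : ℂ} {l' : Y →ₐ[ℂ] K'} {y' : K'}
    {D' : Derivation ℂ K' K'} (h' : TW j w x D ζ ε k t' i s l' y' D') (δ : Derivation ℤ ℂ ℂ)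
    (h0 : δ t = 0) (h1 : δ t' ≠ 0) (e : K' →ₐ[ℂ] K) : False := by
  have : CharZero K := charZero_of_injective_algebraMap (algebraMap ℂ K).injective
  obtain ⟨D₀, a1, a2⟩ := exists_der_ext (trans_of_der h.Dw_ne) δ
  have two : D₀ 2 = 0 := by simpa using D₀.map_natCast 2
  have sq : ∀ u : K, u ≠ 0 → D₀ (u * u) = 0 → D₀ u = 0 := fun u hu e => by
    rw [D₀.leibniz, ← two_smul K, smul_eq_zero, smul_eq_zero] at e
    exact (e.resolve_left two_ne_zero).resolve_left hu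
  have a3 : D₀ (l (i x)) = 0 := by
    have e1 := congrArg D₀ (congrArg (l.comp i) h.el.eqn)
    have e2 := h.Dw_ne
    simp only [AlgHom.comp_apply, map_sub, map_pow, Derivation.leibniz_pow, a1, smul_eq_mul,
      nsmul_eq_mul] at e1
    simp only [h.hD, h.el.Dw, map_sub, map_mul, map_ofNat, map_one] at e2
    refine (mul_eq_zero.1 ?_).resolve_left e2
    push_cast at e1
    linear_combination e1
  have a4 : δ ζ = 0 := by
    have e1 := congrArg δ h.hζ
    simp only [map_add, map_sub, Derivation.leibniz_pow, Derivation.map_one_eq_zero, map_zero,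
      smul_eq_mul, nsmul_eq_mul] at e1
    push_cast at e1
    linear_combination (-(2 * ζ - 1) / 3) * e1 + (4 / 3 * δ ζ) * h.hζ
  have a5 : D₀ (l s) = 0 :=
    sq _ h.s_ne (by simp [h.s_sq, fs, hh, a1, a2, a3, a4, two, map_ofNat])
  have a6 : D₀ y = 0 := sq _ h.qy.ne_zero (by simp [h.y_sq, fy, a1, a2, a3, h0])
  refine h1 (der_t_eq_zero a2 (fun P f hf => ?_) (ι := e.comp (l'.comp i)) h.el (y := e y')
    (by simpa using congrArg e h'.y_sq) h'.adm.ne)
  have key : ∀ u, D₀ u = 0 → u ∈ IntermediateField.adjoin ℂ {f | f ∈ P.1 ∧ D₀ f = 0} :=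
    fun u hu => (P.2.2 u).elim (fun h => IntermediateField.subset_adjoin _ _ ⟨h, hu⟩) fun h =>
      inv_mem_iff.1 (IntermediateField.subset_adjoin _ _ ⟨h, by simp [D₀.leibniz_inv, hu]⟩)
  exact der_mem_of_stable (fun c => ⟨_, a2 c⟩) (h.gen (key _ a1) (key _ a3) (key _ a5) (key _ a6))
    (fun _ h => h.1) (fun u hu => by rw [hu.2]; exact zero_mem _) hf

end TW

end Pool.Agent.Lib.MP_13404a_ag
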