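import Pool.Agent.Lib.MP_13404a_ag.Reg

/-!
Quadratic extensions of function fields and values of functions at points.
-/

open Polynomial
open scoped IntermediateField

namespace Pool.Agent.Lib.MP_13404a_ag

open Pool.Agent.Lib.MP_15f242_ag

instance (C : Curve) : FF ℂ C.K := by
  obtain ⟨x, hx, h⟩ := C.dimOne
  let e := RatFunc.algEquivOfTranscendental x hx
  let : Algebra (RatFunc ℂ) C.K := (ℂ⟮x⟯.val.comp e.toAlgHom).toAlgebra
  have : IsScalarTower ℂ (RatFunc ℂ) C.K := IsScalarTower.of_algHom _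
  have : FunctionField ℂ C.K := Module.Finite.of_equiv_equiv e.symm.toRingEquiv (RingEquiv.refl _)
    (RingHom.ext fun a => congrArg Subtype.val (e.apply_symm_apply a))
  exact ⟨inferInstance, fun _ => FunctionField.finiteDimensional_of_adjoin_transcendental, x, hx⟩

/-- The projective line. -/
noncomputable def line : Curve :=
  ⟨RatFunc ℂ, RatFunc.X, RatFunc.transcendental_X, FunctionField.FiniteDimensional.adjoin_X⟩

section

variable {R A : Type*} [CommRing R] [Algebra ℂ R] [CommRing A] [Algebra ℂ A]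

/-- Maps out of a quadratic algebra. -/
def qlift {a b : R} (ψ : R →ₐ[ℂ] A) (v : A) (h : v * v = ψ a + ψ b * v) :
    QuadraticAlgebra R a b →ₐ[ℂ] A where
  toFun z := ψ z.re + ψ z.im * v
  map_one' := by simp [QuadraticAlgebra.re_one, QuadraticAlgebra.im_one]
  map_mul' z w := by
    simp only [QuadraticAlgebra.re_mul, QuadraticAlgebra.im_mul, map_add, map_mul]
    linear_combination (-(ψ z.im * ψ w.im)) * h
  map_zero' := by simp
  map_add' z w := by
    simp only [QuadraticAlgebra.re_add, QuadraticAlgebra.im_add, map_add]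
    ring
  commutes' c := by
    change ψ (algebraMap ℂ R c) + ψ 0 * v = _
    simp

lemma qlift_apply {a b : R} (ψ : R →ₐ[ℂ] A) (v : A) (h : v * v = ψ a + ψ b * v) (z) :
    qlift ψ v h z = ψ z.re + ψ z.im * v := rfl

/-- The base ring inside a quadratic algebra. -/
def qin (a b : R) : R →ₐ[ℂ] QuadraticAlgebra R a b := IsScalarTower.toAlgHom ℂ R _

lemma qlift_qin {a b : R} (ψ : R →ₐ[ℂ] A) (v : A) (h : v * v = ψ a + ψ b * v) (r : R) :
    qlift ψ v h (qin a b r) = ψ r := by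
  change ψ r + ψ 0 * v = _
  simp

lemma qlift_omega {a b : R} (ψ : R →ₐ[ℂ] A) (v : A) (h : v * v = ψ a + ψ b * v) :
    qlift ψ v h QuadraticAlgebra.omega = v := by
  simp [qlift_apply]

end

variable {F K : Type} [Field F] [Algebra ℂ F] [Field K] [Algebra ℂ K]

/-- `K` is obtained from `F` by adjoining a root `u` of `u ^ 2 = a + b u`. -/
structure Quad (j : F →ₐ[ℂ] K) (a b : F) (u : K) : Prop where
  sq : u * u = j a + j b * u
  span : ∀ z, ∃ p q, z = j p + j q * u
  ind : ∀ p q, j p + j q * u = 0 → p = 0 ∧ q = 0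
  lift : ∀ (A : Type) [CommRing A] [Algebra ℂ A] (ψ : F →ₐ[ℂ] A) (v : A),
    v * v = ψ a + ψ b * v → ∃ φ : K →ₐ[ℂ] A, (∀ r, φ (j r) = ψ r) ∧ φ u = v

lemma exists_quad (F : Curve) {a b : F.K} (h : ∀ r, r ^ 2 ≠ a + b * r) :
    ∃ (C : Curve) (j : F.K →ₐ[ℂ] C.K) (u : C.K), Quad j a b u := by
  have : Fact (∀ r, r ^ 2 ≠ a + b * r) := ⟨h⟩
  have e : ∀ p q, qin a b p + qin a b q * QuadraticAlgebra.omega = ⟨p, q⟩ := fun p q => by
    ext <;> simp [qin]
  refine ⟨⟨QuadraticAlgebra F.K a b, ?_⟩, qin a b, QuadraticAlgebra.omega,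
    QuadraticAlgebra.omega_mul_omega_eq_algebraMap, fun z => ⟨z.re, z.im, (e _ _).symm⟩,
    fun p q h => ?_, fun A _ _ ψ v h => ⟨qlift ψ v h, qlift_qin ψ v h, qlift_omega ψ v h⟩⟩
  · obtain ⟨x, hx, h⟩ := F.dimOne
    have : Module.Finite ℂ⟮x⟯ (QuadraticAlgebra F.K a b) := Module.Finite.trans F.K _
    exact ⟨algebraMap F.K _ x, trans_map (qin a b) hx, .of_restrictScalars_finite ℂ⟮x⟯ _ _⟩
  · rw [e] at h
    exact ⟨congrArg QuadraticAlgebra.re h, congrArg QuadraticAlgebra.im h⟩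

lemma Quad.ne_zero {j : F →ₐ[ℂ] K} {a b : F} {u : K} (h : Quad j a b u) : u ≠ 0 := fun e =>
  one_ne_zero (h.ind 0 1 (by simp [e])).2

lemma Quad.inj {R : Type} [CommRing R] [Algebra ℂ R] {j : F →ₐ[ℂ] K} {a b : R} {u : K}
    {ψ : R →ₐ[ℂ] F} (hψ : Function.Injective ψ) (h : Quad j (ψ a) (ψ b) u) :
    Function.Injective (qlift (a := a) (b := b) (j.comp ψ) u h.sq) :=
  (injective_iff_map_eq_zero _).2 fun z hz => by
    obtain ⟨h1, h2⟩ := h.ind _ _ hz
    exact QuadraticAlgebra.ext ((map_eq_zero_iff _ hψ).1 h1) ((map_eq_zero_iff _ hψ).1 h2)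

lemma Quad.adjoin {j : F →ₐ[ℂ] K} {a b : F} {u : K} (h : Quad j a b u) {S : Set F}
    (hS : IntermediateField.adjoin ℂ S = ⊤) {M : IntermediateField ℂ K} (h1 : ∀ s ∈ S, j s ∈ M)
    (h2 : u ∈ M) : M = ⊤ := by
  have : ∀ p, j p ∈ M := fun p => (hS.ge.trans
    (IntermediateField.adjoin_le_iff.2 (show S ⊆ M.comap j from h1))) IntermediateField.mem_top
  refine eq_top_iff.2 fun z _ => ?_
  obtain ⟨p, q, rfl⟩ := h.span z
  exact add_mem (this p) (mul_mem (this q) h2)

variable [FF ℂ K]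

/-- The function `f` has the value `c` at `P`. -/
def Vl (P : Pt ℂ K) (f : K) (c : ℂ) : Prop := f - algebraMap ℂ K c ∈ fil P (-1)

namespace Vl

variable {P : Pt ℂ K} {f g : K} {c d : ℂ}

lemma mem (h : Vl P f c) : f ∈ P.1 := by
  simpa using add_mem (mem_of_fil h (by omega)) (P.1.algebraMap_mem c)

lemma const (c : ℂ) : Vl P (algebraMap ℂ K c) c := by simp [Vl]

lemma add (h : Vl P f c) (h' : Vl P g d) : Vl P (f + g) (c + d) := by
  have := add_mem h h'
  rwa [← add_sub_add_comm, ← map_add] at this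

lemma sub (h : Vl P f c) (h' : Vl P g d) : Vl P (f - g) (c - d) := by
  have := sub_mem h h'
  rwa [← sub_sub_sub_comm, ← map_sub] at this

lemma mul (h : Vl P f c) (h' : Vl P g d) : Vl P (f * g) (c * d) := by
  have := add_mem (fil_mul h h'.mem) (mul_fil (P.1.algebraMap_mem c) h')
  unfold Vl
  convert this using 1
  rw [map_mul]
  ring

lemma one : Vl P 1 1 := by simp [Vl]

lemma nat (n : ℕ) [n.AtLeastTwo] : Vl P (OfNat.ofNat n) (OfNat.ofNat n) := by
  simp [Vl, map_ofNat]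

lemma pow (h : Vl P f c) (n : ℕ) : Vl P (f ^ n) (c ^ n) := by
  induction n with
  | zero => simpa using one
  | succ n ih => rw [pow_succ, pow_succ]; exact ih.mul h

lemma aeval (h : Vl P f c) (p : ℂ[X]) : Vl P (aeval f p) (p.eval c) := by
  induction p using Polynomial.induction_on' with
  | add p q hp hq => rw [map_add, eval_add]; exact hp.add hq
  | monomial n a => rw [aeval_monomial, eval_monomial]; exact (const a).mul (h.pow n)

lemma unique (h : Vl P f c) (h' : Vl P f d) : c = d := by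
  have := h.sub h'
  rw [Vl, sub_self, zero_sub, neg_mem_iff] at this
  exact sub_eq_zero.1 (const_eq_zero this)

lemma zero_iff : Vl P f 0 ↔ f ∈ fil P (-1) := by simp [Vl]

lemma po_zero (h : Vl P f c) (hc : c ≠ 0) : f ≠ 0 ∧ po P f = 0 := by
  have h1 : f ∉ fil P (-1) := fun e => hc (h.unique (zero_iff.2 e))
  have h0 : f ≠ 0 := fun e => h1 (e ▸ zero_mem _)
  rw [mem_fil h0] at h1
  have := mem_iff_po.1 h.mem
  exact ⟨h0, by omega⟩

lemma cancel (h : Vl P f c) (hc : c ≠ 0) {n : ℤ} (h' : f * g ∈ fil P n) : g ∈ fil P n := by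
  rwa [← mul_mem_fil_iff (h.po_zero hc).1, (h.po_zero hc).2, add_zero]

/-- A function whose derivative does not vanish has a simple zero. -/
lemma simple {D : Derivation ℂ K K} (hD : Ord P D 0) (h : Vl P f 0) (h' : Vl P (D f) c)
    (hc : c ≠ 0) : f ≠ 0 ∧ po P f = -1 := by
  have h0 : f ≠ 0 := fun e => (h'.po_zero hc).1 (by simp [e])
  have h1 := (mem_fil h0).1 (zero_iff.1 h)
  have h2 := (hD.po_eq f (by omega)).2
  rw [(h'.po_zero hc).2] at h2
  exact ⟨h0, by omega⟩

end Vl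

lemma exists_vl {P : Pt ℂ K} {f : K} (h : f ∈ P.1) : ∃ c, Vl P f c := by
  obtain ⟨c, hc⟩ := exists_res one_ne_zero (po_one P) (mem_fil_zero.2 h)
  exact ⟨c, by simpa [Vl, Algebra.smul_def] using hc⟩

lemma exists_zero {f : K} (h : Transcendental ℂ f) (c : ℂ) : ∃ P : Pt ℂ K, Vl P f c := by
  obtain ⟨P, hP⟩ := exists_pole (x := (f - algebraMap ℂ K c)⁻¹) fun h' =>
    h (by simpa using (IsAlgebraic.inv_iff.1 h').add (isAlgebraic_algebraMap c))
  rw [mem_iff_po, po_inv] at hP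
  exact ⟨P, mem_fil_of (by omega)⟩

lemma po_aeval {P : Pt ℂ K} {f : K} (h : 0 < po P f) (p : ℂ[X]) (hp : p ≠ 0) :
    aeval f p ≠ 0 ∧ po P (aeval f p) = p.natDegree * po P f := by
  have f0 : f ≠ 0 := fun e => by simp [e, po] at h
  induction hn : p.natDegree using Nat.strong_induction_on generalizing p with
  | _ n ih =>
  have h1 : aeval f (C p.leadingCoeff * X ^ n) ≠ 0 ∧
      po P (aeval f (C p.leadingCoeff * X ^ n)) = n * po P f := by
    have : algebraMap ℂ K p.leadingCoeff ≠ 0 := by simpa using hp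
    simp only [map_mul, map_pow, aeval_C, aeval_X]
    exact ⟨mul_ne_zero this (pow_ne_zero _ f0), by
      rw [po_mul P this (pow_ne_zero _ f0), po_const, po_pow, zero_add]⟩
  rw [← eraseLead_add_C_mul_X_pow p, hn]
  by_cases e : p.eraseLead = 0
  · rwa [e, zero_add]
  have h2 := (eraseLead_natDegree_lt_or_eraseLead_eq_zero p).resolve_right e
  obtain ⟨h3, h4⟩ := ih _ (hn ▸ h2) _ e rfl
  have := po_add (P := P) h3 h1.1 (by
    rw [h4, h1.2]
    exact mul_lt_mul_of_pos_right (by exact_mod_cast hn ▸ h2) h)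
  rw [map_add, ← h1.2]
  exact this

end Pool.Agent.Lib.MP_13404a_ag
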