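import Pool.Agent.Lib.MP_13404a_ag.Exist
import Pool.Agent.Lib.MP_13404a_ag.Defs

/-!
Maps of curves on points, ramification and regular differentials.
-/

open Polynomial
open scoped IntermediateField

namespace Pool.Agent.Lib.MP_13404a_ag

open Pool.Agent.Lib.MP_15f242_ag

variable {F K : Type} [Field F] [Algebra ℂ F] [Field K] [Algebra ℂ K]

lemma trans_map (ι : F →ₐ[ℂ] K) {w : F} (hw : Transcendental ℂ w) : Transcendental ℂ (ι w) :=
  fun h => hw ((isAlgebraic_algHom_iff ι ι.injective).1 h)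

lemma pull_smul_D (ι : F →ₐ[ℂ] K) (f g : F) :
    pull ι (f • KaehlerDifferential.D ℂ F g) = ι f • KaehlerDifferential.D ℂ K (ι g) := by
  let := ι.toAlgebra
  have := IsScalarTower.of_algHom ι
  change KaehlerDifferential.map ℂ ℂ F K _ = _
  rw [map_smul, KaehlerDifferential.map_D, ← algebraMap_smul K]
  rfl

variable [FF ℂ F] [FF ℂ K]

lemma comap_ne_top (ι : F →ₐ[ℂ] K) (P : Pt ℂ K) : P.1.comap ι ≠ ⊤ := fun h => by
  obtain ⟨w, hw⟩ := FF.ex (k := ℂ) (K := F)
  obtain ⟨π, h0, hπ⟩ := exists_po P (-1)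
  obtain ⟨q, h1, h2⟩ := (alg_adjoin (trans_map ι hw) π).exists_nonzero_coeff_and_aeval_eq_zero
    (mem_nonZeroDivisors_of_ne_zero h0)
  have hR : ∀ a ∈ Algebra.adjoin ℂ {ι w}, a ∈ P.1 ∧ a⁻¹ ∈ P.1 := fun a ha => by
    obtain ⟨f, rfl⟩ : a ∈ ι.range := Algebra.adjoin_le (by simp) ha
    exact ⟨h.ge (Algebra.mem_top (x := f)), map_inv₀ ι f ▸ h.ge (Algebra.mem_top (x := f⁻¹))⟩
  have h3 : ∀ p : (Algebra.adjoin ℂ {ι w})[X], aeval π p ∈ P.1 := fun p => by
    rw [aeval_eq_sum_range]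
    exact sum_mem fun i _ => mul_mem (hR _ (p.coeff i).2).1 (pow_mem (mem_iff_po.2 (by omega)) i)
  rw [← X_mul_divX_add q] at h2
  simp only [map_add, map_mul, aeval_X, aeval_C] at h2
  have h4 : (q.coeff 0 : K) ∈ fil P (-1) := by
    rw [show (q.coeff 0 : K) = -(π * aeval π q.divX) from eq_neg_of_add_eq_zero_right h2]
    exact neg_mem (fil_mul (mem_fil_of hπ.le) (h3 _))
  have h5 := mem_iff_po.1 (hR _ (q.coeff 0).2).2
  rw [mem_fil (by simpa using h1)] at h4
  rw [po_inv] at h5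
  omega

/-- The image of a point under the map of curves given by `ι`. -/
noncomputable def res (ι : F →ₐ[ℂ] K) (P : Pt ℂ K) : Pt ℂ F :=
  ⟨P.1.comap ι, comap_ne_top ι P, fun x => (P.2.2 (ι x)).imp id fun h => by
    rwa [← map_inv₀] at h⟩

lemma mem_res {ι : F →ₐ[ℂ] K} {P : Pt ℂ K} {f : F} : f ∈ (res ι P).1 ↔ ι f ∈ P.1 := Iff.rfl

lemma po_zpow (P : Pt ℂ K) (x : K) (n : ℤ) : po P (x ^ n) = n * po P x := by
  rw [po, map_zpow₀, WithZero.log_zpow, ← po]; simp

lemma exists_e (ι : F →ₐ[ℂ] K) (P : Pt ℂ K) :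
    ∃ e : ℤ, 0 < e ∧ ∀ f, po P (ι f) = e * po (res ι P) f := by
  obtain ⟨π, h0, hπ⟩ := exists_po (res ι P) 1
  refine ⟨po P (ι π), not_le.1 fun h => ?_, fun f => ?_⟩
  · have := mem_iff_po.1 (mem_res.2 (mem_iff_po.2 h))
    omega
  rcases eq_or_ne f 0 with rfl | hf
  · simp [po]
  have p0 : π ^ po (res ι P) f ≠ 0 := zpow_ne_zero _ h0
  have h1 : po (res ι P) (f * (π ^ po (res ι P) f)⁻¹) = 0 := by
    rw [po_mul _ hf (inv_ne_zero p0), po_inv, po_zpow, hπ]; ring
  have h2 := mem_iff_po.1 (mem_res.1 (mem_iff_po.2 h1.le))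
  have h3 := mem_iff_po.1 (mem_res.1 (mem_iff_po.2 (((po_inv _ _).trans (by rw [h1, neg_zero])).le)))
  rw [map_inv₀, po_inv] at h3
  rw [map_mul, map_inv₀, map_zpow₀, po_mul P (by simpa using hf)
    (inv_ne_zero (zpow_ne_zero _ (by simpa using h0))), po_inv, po_zpow] at h2 h3
  linarith

lemma res_surj (ι : F →ₐ[ℂ] K) (Q : Pt ℂ F) : ∃ P, res ι P = Q := by
  obtain ⟨π, h0, hπ⟩ := exists_po Q (-1)
  let A := (Q.1.map ι).toSubring
  let y : A := ⟨ι π, π, mem_iff_po.2 (by omega), rfl⟩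
  have h1 : Ideal.span {y} ≠ ⊤ := fun e => by
    obtain ⟨⟨_, a, ha, rfl⟩, h⟩ := Ideal.mem_span_singleton'.1 ((Ideal.eq_top_iff_one _).1 e)
    have h2 : a * π = 1 := ι.injective (by simpa using congrArg Subtype.val h)
    have h3 := mem_iff_po.1 ha
    rw [eq_inv_of_mul_eq_one_left h2, po_inv] at h3
    omega
  obtain ⟨B, h2, h3⟩ := Ideal.image_subset_nonunits_valuationSubring _ h1
  have h4 : (ι π)⁻¹ ∉ B := by
    have := h3 ⟨y, Ideal.subset_span rfl, rfl⟩
    rw [← inv_inv (A.subtype y)] at this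
    exact (B.inv_mem_nonunits_iff.1 this).resolve_left (by simpa [y] using h0)
  refine ⟨⟨{ B.toSubring with algebraMap_mem' := fun c => h2 ((Q.1.map ι).algebraMap_mem c) },
    fun e => h4 ((eq_top_iff.1 e) trivial), B.mem_or_inv_mem⟩, (Pt.eq_of_le fun x hx => ?_).symm⟩
  exact h2 ⟨x, hx, rfl⟩

omit [FF ℂ K] in
lemma der_comm (ι : F →ₐ[ℂ] K) {DF : Derivation ℂ F F} {DK : Derivation ℂ K K} {w : F}
    (hw : Transcendental ℂ w) (h : DK (ι w) = ι (DF w)) (f : F) : DK (ι f) = ι (DF f) := by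
  let := ι.toAlgebra
  have := IsScalarTower.of_algHom ι
  exact sub_eq_zero.1 (der_eq_zero
    ((DK.compAlgebraMap F - (Algebra.linearMap F K).compDer DF).restrictScalars ℤ)
    (fun c => Derivation.map_algebraMap _ c) hw (sub_eq_zero.2 h) f)

lemma ord_res {ι : F →ₐ[ℂ] K} {DF : F → F} {DK : K → K} (h : ∀ f, DK (ι f) = ι (DF f))
    {P : Pt ℂ K} {m m' e : ℤ} (h1 : Ord P DK m) (h2 : Ord (res ι P) DF m') (he : 0 < e)
    (h3 : ∀ f, po P (ι f) = e * po (res ι P) f) : m = e * m' + e - 1 := by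
  obtain ⟨π, -, hπ⟩ := exists_po (res ι P) (-1)
  have h4 := (h1.po_eq (ι π) (by rw [h3, hπ]; omega)).2
  rw [h, h3, h3, (h2.po_eq π (by omega)).2, hπ] at h4
  linarith

/-- Functions `f` such that `f η` is regular, `η` the differential dual to `D`. -/
def Rg (D : Derivation ℂ K K) : Submodule ℂ K where
  carrier := {f | ∀ P m, Ord P D m → f ∈ fil P m}
  add_mem' hf hg P m h := add_mem (hf P m h) (hg P m h)
  zero_mem' _ _ _ := zero_mem _
  smul_mem' c _ hf P m h := Submodule.smul_of_tower_mem _ c (hf P m h)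

lemma map_Rg {ι : F →ₐ[ℂ] K} {DF : Derivation ℂ F F} {DK : Derivation ℂ K K}
    (h : ∀ f, DK (ι f) = ι (DF f)) {w : F} (hw : DF w ≠ 0) {f : F} (hf : f ∈ Rg DF) :
    ι f ∈ Rg DK := fun P m hm => by
  rcases eq_or_ne f 0 with rfl | f0
  · simp
  obtain ⟨m', hm'⟩ := exists_ord (res ι P) hw
  obtain ⟨e, he, h3⟩ := exists_e ι P
  have h4 := (mem_fil f0).1 (hf _ _ hm')
  refine mem_fil_of ?_
  rw [h3, ord_res h hm hm' he h3]
  nlinarith

lemma sq_Rg {ι : F →ₐ[ℂ] K} {DF : Derivation ℂ F F} {DK : Derivation ℂ K K}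
    (h : ∀ f, DK (ι f) = ι (DF f)) {w : K} (hw : DK w ≠ 0) (h0 : ∀ Q, Ord Q DF 0) {g : K} {ψ : F}
    (hg : g ^ 2 = ι ψ) : g ∈ Rg DK ↔ ∀ Q : Pt ℂ F, ψ ∈ fil Q 1 := by
  rcases eq_or_ne g 0 with rfl | g0
  · have : ψ = 0 := by simpa using hg.symm
    simp [this]
  have ψ0 : ψ ≠ 0 := fun e => g0 (by simpa [e] using hg)
  have key : ∀ P m, Ord P DK m → (g ∈ fil P m ↔ ψ ∈ fil (res ι P) 1) := fun P m hm => by
    obtain ⟨e, he, h3⟩ := exists_e ι P
    have h4 := h3 ψ
    rw [← hg, po_pow] at h4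
    rw [mem_fil g0, mem_fil ψ0, ord_res h hm (h0 _) he h3]
    push_cast at h4
    constructor
    · intro h5
      by_contra h6
      nlinarith
    · intro h5
      rcases h5.eq_or_lt with h6 | h6
      · rw [h6] at h4
        omega
      · nlinarith
  refine ⟨fun hR Q => ?_, fun hR P m hm => (key P m hm).2 (hR _)⟩
  obtain ⟨P, rfl⟩ := res_surj ι Q
  obtain ⟨m, hm⟩ := exists_ord P hw
  exact (key P m hm).1 (hR P m hm)

/-- The differential dual to `D`. -/
noncomputable def eta (D : Derivation ℂ K K) (w : K) : Ω[K⁄ℂ] :=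
  (D w)⁻¹ • KaehlerDifferential.D ℂ K w

section

variable {D : Derivation ℂ K K} {w : K} (hw : D w ≠ 0)

include hw

lemma trans_of_der : Transcendental ℂ w := fun h => by
  obtain ⟨c, rfl⟩ := mem_range_of_alg h
  exact hw (D.map_algebraMap c)

lemma D_eq (f : K) : KaehlerDifferential.D ℂ K f = D f • eta D w :=
  sub_eq_zero.1 (der_eq_zero ((KaehlerDifferential.D ℂ K -
    (LinearMap.toSpanSingleton K _ (eta D w)).compDer D).restrictScalars ℤ)
    (fun c => Derivation.map_algebraMap _ c) (trans_of_der hw) (by simp [eta, hw]) f)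

omit [FF ℂ K] in
lemma lift_eta : D.liftKaehlerDifferential (eta D w) = 1 := by simp [eta, hw]

lemma exists_smul_eta (ω : Ω[K⁄ℂ]) : ∃ f : K, ω = f • eta D w := by
  have : ω ∈ Submodule.span K {eta D w} := by
    refine (show (⊤ : Submodule K Ω[K⁄ℂ]) ≤ _ from ?_) Submodule.mem_top
    rw [← KaehlerDifferential.span_range_derivation, Submodule.span_le]
    rintro _ ⟨f, rfl⟩
    exact Submodule.mem_span_singleton.2 ⟨D f, (D_eq hw f).symm⟩
  obtain ⟨f, hf⟩ := Submodule.mem_span_singleton.1 this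
  exact ⟨f, hf.symm⟩

lemma smul_eta_mem {f : K} : f • eta D w ∈ regular K ↔ f ∈ Rg D := by
  simp only [regular, Submodule.mem_iInf]
  constructor
  · intro h P m hm
    have : ∀ ω ∈ Submodule.span ℂ {ω | ∃ f ∈ P.1, ∃ g ∈ P.1, ω = f • KaehlerDifferential.D ℂ K g},
        D.liftKaehlerDifferential ω ∈ fil P m := fun ω hω => by
      induction hω using Submodule.span_induction with
      | mem x hx =>
        obtain ⟨a, ha, b, hb, rfl⟩ := hx
        simpa using mul_fil ha (hm.mem b hb)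
      | zero => simp
      | add x y _ _ hx hy => rw [map_add]; exact add_mem hx hy
      | smul c x _ hx =>
        rw [LinearMap.map_smul_of_tower]
        exact Submodule.smul_of_tower_mem _ c hx
    simpa [lift_eta hw] using this _ (h P.1 P.2.2)
  · intro h O hO
    by_cases e : O = ⊤
    · exact Submodule.subset_span ⟨f * (D w)⁻¹, e ▸ trivial, w, e ▸ trivial, by rw [eta, mul_smul]⟩
    let P : Pt ℂ K := ⟨O, e, hO⟩
    obtain ⟨m, hm⟩ := exists_ord P hw
    obtain ⟨π, -, hπ⟩ := exists_po P (-1)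
    obtain ⟨h1, h2⟩ := hm.po_eq π (by omega)
    refine Submodule.subset_span ⟨f * (D π)⁻¹, ?_, π, (mem_iff_po (P := P)).2 (by omega), ?_⟩
    · refine (mem_fil_zero (P := P)).1 ?_
      convert mul_mem_fil (h P m hm) (mem_fil_of (le_refl (po P (D π)⁻¹))) using 2
      rw [po_inv]
      omega
    · rw [D_eq hw, smul_smul, inv_mul_cancel_right₀ h1]

omit [FF ℂ K] in
lemma indep_smul_eta {J : Type*} {f : J → K} (h : LinearIndependent ℂ f) :
    LinearIndependent ℂ fun j => f j • eta D w :=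
  LinearIndependent.of_comp (D.liftKaehlerDifferential.restrictScalars ℂ) (by
    have : D.liftKaehlerDifferential.restrictScalars ℂ ∘ (fun j => f j • eta D w) = f := by
      ext j
      simp [lift_eta hw]
    rwa [this])

lemma finrank_regular : Module.finrank ℂ (regular K) = Module.finrank ℂ (Rg D) := by
  have h1 : Function.Injective ((LinearMap.toSpanSingleton K _ (eta D w)).restrictScalars ℂ) :=
    fun a b h => by simpa [lift_eta hw] using congrArg D.liftKaehlerDifferential h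
  rw [(Submodule.equivMapOfInjective _ h1 (Rg D)).finrank_eq]
  congr 2 <;> (
    ext ω
    obtain ⟨f, rfl⟩ := exists_smul_eta hw ω
    rw [smul_eta_mem hw]
    exact ⟨fun h => ⟨f, h, rfl⟩, fun ⟨g, h, e⟩ => h1 e ▸ h⟩)

end

end Pool.Agent.Lib.MP_13404a_ag
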