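import Pool.Agent.Lib.MP_13404a_ag.Lsp

/-!
The branch functions of the three double covers and their orders.
-/

open Polynomial Module

namespace Pool.Agent.Lib.MP_13404a_ag

open Pool.Agent.Lib.MP_15f242_ag

variable {E : Type} [Field E] [Algebra ℂ E]

/-- Branch function of the moving genus four curve. -/
noncomputable def fy {A : Type} [CommRing A] [Algebra ℂ A] (t : ℂ) (w x : A) : A :=
  w * (x - algebraMap ℂ A t)

/-- Branch function of the fixed double cover. -/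
noncomputable def fs {A : Type} [CommRing A] [Algebra ℂ A] (ζ : ℂ) (e k : ℕ) (w x : A) : A :=
  w * (hh ζ w x ^ e * (w ^ k - 2))

/-- Branch function of the third double cover. -/
noncomputable def fz (ζ : ℂ) (e k : ℕ) (t : ℂ) (w x : E) : E :=
  (x - algebraMap ℂ E t) * (hh ζ w x ^ e * (w ^ k - 2))

/-- Admissible parameter values. -/
structure Adm (ζ : ℂ) (k : ℕ) (t : ℂ) : Prop where
  ne : t ^ 2 - t ≠ 0
  flex : t ≠ ζ
  root : (t ^ 2 - t) ^ k ≠ 8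

lemma one_lt_norm {a : ℂ} {k : ℕ} (h : a ^ k = 2) : 1 < ‖a‖ := by
  by_contra h1
  have h2 := pow_le_one₀ (n := k) (norm_nonneg a) (not_lt.1 h1)
  rw [← norm_pow, h] at h2
  norm_num at h2

variable [FF ℂ E]

lemma not_sq {f : E} {Q : Pt ℂ E} (h : Odd (po Q f)) (r : E) : r ^ 2 ≠ f := fun e => by
  rw [← e, po_pow] at h
  obtain ⟨m, hm⟩ := h
  push_cast at hm
  omega

namespace EL

variable {j : RatFunc ℂ →ₐ[ℂ] E} {w x : E} {D : Derivation ℂ E E} (h : EL j w x D) {Q : Pt ℂ E}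
  {ζ t a b : ℂ} {e k : ℕ}

include h

omit [FF ℂ E] in
lemma w_ne : w ≠ 0 := fun e => h.trans (e ▸ isAlgebraic_zero)

lemma inf_table (_ζ t : ℂ) (k : ℕ) (hw : w ∉ Q.1) :
    (x - algebraMap ℂ E t ≠ 0 ∧ po Q (x - algebraMap ℂ E t) = 3) ∧
      w ^ k - 2 ≠ 0 ∧ po Q (w ^ k - 2) = 2 * k := by
  obtain ⟨-, h1, h2⟩ := h.ord_inf hw
  constructor
  · rcases eq_or_ne t 0 with rfl | ht
    · simpa using ⟨h.quad.ne_zero, h2⟩
    · rw [sub_eq_neg_add, ← h2, ← map_neg]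
      exact po_add (by simpa using ht) h.quad.ne_zero (by rw [po_const]; omega)
  · rcases eq_or_ne k 0 with rfl | hk
    · have : w ^ 0 - 2 = algebraMap ℂ E (-1) := by simp; norm_num
      rw [this, po_const]
      simp
    · have := po_aeval (f := w) (P := Q) (by omega) (X ^ k - C 2)
        (X_pow_sub_C_ne_zero (Nat.pos_of_ne_zero hk) 2)
      rw [natDegree_X_pow_sub_C, h1, mul_comm] at this
      simpa [map_ofNat] using this

lemma ne_zeros (ζ t : ℂ) (k : ℕ) :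
    x - algebraMap ℂ E t ≠ 0 ∧ w ^ k - 2 ≠ 0 ∧ hh ζ w x ≠ 0 :=
  let ⟨_, hQ⟩ := h.exists_inf
  ⟨(h.inf_table ζ t k hQ).1.1, (h.inf_table ζ t k hQ).2.1, (h.po_hh ζ hQ).1⟩

lemma fy_ne (t : ℂ) : fy t w x ≠ 0 := mul_ne_zero h.w_ne (h.ne_zeros 0 t 0).1

lemma fs_ne (ζ : ℂ) (e k : ℕ) : fs ζ e k w x ≠ 0 :=
  mul_ne_zero h.w_ne (mul_ne_zero (pow_ne_zero _ (h.ne_zeros ζ 0 k).2.2) (h.ne_zeros ζ 0 k).2.1)

lemma fz_ne (ζ : ℂ) (e k : ℕ) (t : ℂ) : fz ζ e k t w x ≠ 0 :=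
  mul_ne_zero (h.ne_zeros ζ t k).1
    (mul_ne_zero (pow_ne_zero _ (h.ne_zeros ζ 0 k).2.2) (h.ne_zeros ζ 0 k).2.1)

lemma po_fy (Q : Pt ℂ E) (t : ℂ) : po Q (fy t w x) = po Q w + po Q (x - algebraMap ℂ E t) :=
  po_mul Q h.w_ne (h.ne_zeros 0 t 0).1

lemma po_fs (Q : Pt ℂ E) (ζ : ℂ) (e k : ℕ) :
    po Q (fs ζ e k w x) = po Q w + (po Q (hh ζ w x ^ e) + po Q (w ^ k - 2)) := by
  obtain ⟨-, h2, h3⟩ := h.ne_zeros ζ 0 k
  replace h3 := pow_ne_zero e h3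
  rw [fs, po_mul Q h.w_ne (mul_ne_zero h3 h2), po_mul Q h3 h2]

lemma po_fz (Q : Pt ℂ E) (ζ : ℂ) (e k : ℕ) (t : ℂ) : po Q (fz ζ e k t w x) =
    po Q (x - algebraMap ℂ E t) + (po Q (hh ζ w x ^ e) + po Q (w ^ k - 2)) := by
  obtain ⟨h1, h2, h3⟩ := h.ne_zeros ζ t k
  replace h3 := pow_ne_zero e h3
  rw [fz, po_mul Q h1 (mul_ne_zero h3 h2), po_mul Q h3 h2]

lemma po_w (ha : Vl Q w a) (hb : Vl Q x b) : (a = 0 ∧ po Q w = -1) ∨ (a ≠ 0 ∧ po Q w = 0) := by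
  rcases eq_or_ne a 0 with rfl | e
  · refine Or.inl ⟨rfl, (Vl.simple (h.ord Q) ha (h.Dw ▸ ((Vl.nat 2).mul hb).sub Vl.one)
      fun e => ?_).2⟩
    have : (1 : ℂ) = 0 := by linear_combination (2 * b - 1) * e - 4 * h.vl_eqn ha hb
    exact one_ne_zero this
  · exact Or.inr ⟨e, (ha.po_zero e).2⟩

lemma po_xt (ht : t ^ 2 - t ≠ 0) (ha : Vl Q w a) (hb : Vl Q x b) :
    (b = t ∧ a ≠ 0 ∧ po Q (x - algebraMap ℂ E t) = -1) ∨
      (b ≠ t ∧ po Q (x - algebraMap ℂ E t) = 0) := by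
  have h1 := hb.sub (Vl.const t)
  rcases eq_or_ne b t with rfl | e
  · have a0 : a ≠ 0 := fun e => ht (by simpa [e] using h.vl_eqn ha hb)
    rw [sub_self] at h1
    exact Or.inl ⟨rfl, a0, (Vl.simple (h.ord Q) h1 (c := 3 * a ^ 2)
      (by simpa [h.Dx] using (Vl.nat 3).mul (ha.pow 2)) (by simpa using a0)).2⟩
  · exact Or.inr ⟨e, (h1.po_zero (sub_ne_zero.2 e)).2⟩

lemma po_a (k : ℕ) (ha : Vl Q w a) (hb : Vl Q x b) :
    (a ^ k = 2 ∧ po Q (w ^ k - 2) = -1) ∨ (a ^ k ≠ 2 ∧ po Q (w ^ k - 2) = 0) := by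
  have h1 := (ha.pow k).sub (Vl.nat 2)
  rcases eq_or_ne (a ^ k) 2 with e | e
  · have h2 := one_lt_norm e
    have k0 : k ≠ 0 := by rintro rfl; norm_num at e
    have a0 : a ≠ 0 := by rintro rfl; norm_num at h2
    have b0 : 2 * b - 1 ≠ 0 := fun e' => by
      have h3 : 4 * a ^ 3 = -1 := by linear_combination (2 * b - 1) * e' - 4 * h.vl_eqn ha hb
      have h4 := congrArg norm h3
      have h5 := one_lt_pow₀ h2 three_ne_zero
      simp at h4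
      linarith
    rw [e, sub_self] at h1
    refine Or.inl ⟨e, (Vl.simple (h.ord Q) h1 (c := k * (a ^ (k - 1) * (2 * b - 1))) ?_
      (by simp [k0, a0, b0])).2⟩
    have h3 : D 2 = 0 := by simpa using D.map_natCast 2
    simpa [h.Dw, h3] using (Vl.const (k : ℂ)).mul
      ((ha.pow (k - 1)).mul (((Vl.nat 2).mul hb).sub Vl.one))
  · exact Or.inr ⟨e, (h1.po_zero (sub_ne_zero.2 e)).2⟩

lemma po_h (hζ : ζ ^ 2 - ζ + 1 = 0) (he : e ≤ 1) (ha : Vl Q w a) (hb : Vl Q x b) :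
    (Vl Q (hh ζ w x ^ e) 0 ∧ a = -1 ∧ b = ζ ∧ po Q (hh ζ w x ^ e) = -3) ∨
      (¬ Vl Q (hh ζ w x ^ e) 0 ∧ po Q (hh ζ w x ^ e) = 0) := by
  obtain rfl | rfl : e = 0 ∨ e = 1 := by omega
  · rw [pow_zero]
    exact Or.inr ⟨fun h => one_ne_zero (Vl.one.unique h), po_one Q⟩
  rw [pow_one]
  by_cases e : Vl Q (hh ζ w x) 0
  · obtain ⟨h1, h2, h3⟩ := h.flex hζ ha.mem e
    exact Or.inl ⟨e, ha.unique h1, hb.unique h2, h3⟩
  · have := (hb.add ((Vl.const (2 * ζ - 1)).mul ha)).add (Vl.const (ζ - 1))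
    exact Or.inr ⟨e, (this.po_zero fun e' => e (e' ▸ this)).2⟩

lemma dim_e (hζ : ζ ^ 2 - ζ + 1 = 0) (he : e ≤ 1) {n : ℕ} (hn : 0 < n) :
    FiniteDimensional ℂ (LL (d1 w (hh ζ w x ^ e) n)) ∧
      finrank ℂ (LL (d1 w (hh ζ w x ^ e) n)) = n - e := by
  obtain rfl | rfl : e = 0 ∨ e = 1 := by omega
  · have : d1 w (hh ζ w x ^ 0) n = d0 w n := funext fun Q => by
      rw [d0, d1, pow_zero, if_neg fun h => one_ne_zero (Vl.one.unique h)]
    rw [this]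
    exact ⟨(h.dim_d0 n).1, (h.dim_d0 n).2.trans (by omega)⟩
  · rw [pow_one]
    exact ⟨(h.dim_d1 hζ n).1, (h.dim_d1 hζ n).2.trans (by omega)⟩

lemma tab_y (ht : t ^ 2 - t ≠ 0) (Q : Pt ℂ E) :
    po Q (fy t w x) = 2 * d0 w 3 Q - 1 ∨ po Q (fy t w x) = 2 * d0 w 3 Q := by
  rw [h.po_fy, d0]
  split_ifs with hw
  · obtain ⟨a, ha⟩ := exists_vl hw
    obtain ⟨b, hb⟩ := exists_vl (h.x_mem hw)
    have := h.po_w ha hb
    have := h.po_xt ht ha hb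
    grind
  · rw [(h.ord_inf hw).2.1, (h.inf_table 0 t 0 hw).1.2]
    simp

lemma tab_s (hζ : ζ ^ 2 - ζ + 1 = 0) (he : e ≤ 1) (Q : Pt ℂ E) :
    po Q (fs ζ e k w x) = 2 * d1 w (hh ζ w x ^ e) (k + 1 + 2 * e) Q - 1 ∨
      po Q (fs ζ e k w x) = 2 * d1 w (hh ζ w x ^ e) (k + 1 + 2 * e) Q := by
  rw [h.po_fs, d1]
  by_cases hw : w ∈ Q.1
  · obtain ⟨a, ha⟩ := exists_vl hw
    obtain ⟨b, hb⟩ := exists_vl (h.x_mem hw)
    have h1 : a ^ k = 2 → a ≠ 0 ∧ a ≠ -1 := fun e => by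
      have := one_lt_norm e
      constructor <;> rintro rfl <;> norm_num at this
    have := h.po_w ha hb
    have := h.po_a k ha hb
    have := h.po_h hζ he ha hb
    rw [if_pos hw]
    grind
  · rw [if_neg hw, (h.ord_inf hw).2.1, (h.inf_table 0 0 k hw).2.2, po_pow,
      (h.po_hh ζ hw).2]
    push_cast
    omega

lemma tab_z (hζ : ζ ^ 2 - ζ + 1 = 0) (he : e ≤ 1) (ht : Adm ζ k t) (Q : Pt ℂ E) :
    po Q (fz ζ e k t w x) = 2 * d1 w (hh ζ w x ^ e) (k + 2 + e) Q - 1 ∨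
      po Q (fz ζ e k t w x) = 2 * d1 w (hh ζ w x ^ e) (k + 2 + e) Q := by
  rw [h.po_fz, d1]
  by_cases hw : w ∈ Q.1
  · obtain ⟨a, ha⟩ := exists_vl hw
    obtain ⟨b, hb⟩ := exists_vl (h.x_mem hw)
    have h1 : a ^ k = 2 → a ≠ -1 ∧ b ≠ t := fun e => by
      have := one_lt_norm e
      refine ⟨by rintro rfl; norm_num at this, ?_⟩
      rintro rfl
      refine ht.root ?_
      rw [h.vl_eqn ha hb, ← pow_mul, mul_comm, pow_mul, e]
      norm_num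
    have := h.po_xt ht.ne ha hb
    have := h.po_a k ha hb
    have := h.po_h hζ he ha hb
    have := ht.flex
    rw [if_pos hw]
    grind
  · rw [if_neg hw, (h.inf_table 0 t k hw).1.2, (h.inf_table 0 0 k hw).2.2, po_pow,
      (h.po_hh ζ hw).2]
    push_cast
    omega

lemma x_trans : Transcendental ℂ x :=
  let ⟨Q, hQ⟩ := h.exists_inf
  trans_of_po (P := Q) (by rw [(h.ord_inf hQ).2.2]; omega)

lemma fs_not_sq (hζ : ζ ^ 2 - ζ + 1 = 0) (he : e ≤ 1) (k : ℕ) (r : E) :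
    r ^ 2 ≠ fs ζ e k w x + 0 * r := by
  obtain ⟨Q, ha⟩ := exists_zero h.trans 0
  obtain ⟨b, hb⟩ := exists_vl (h.x_mem ha.mem)
  rw [zero_mul, add_zero]
  refine not_sq (Q := Q) ⟨-1, ?_⟩ r
  have h1 : (0 : ℂ) ^ k ≠ 2 := fun e => by
    have := one_lt_norm e
    norm_num at this
  have := h.po_w ha hb
  have := h.po_a k ha hb
  have := h.po_h hζ he ha hb
  rw [h.po_fs]
  grind

lemma fy_not_sq (t : ℂ) (r : E) : r ^ 2 ≠ fy t w x := by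
  obtain ⟨Q, hw⟩ := h.exists_inf
  refine not_sq (Q := Q) ⟨2, ?_⟩ r
  rw [h.po_fy, (h.ord_inf hw).2.1, (h.inf_table 0 t 0 hw).1.2]
  ring

lemma fz_not_sq (hζ : ζ ^ 2 - ζ + 1 = 0) (he : e ≤ 1) (ht : Adm ζ k t) (r : E) :
    r ^ 2 ≠ fz ζ e k t w x := by
  obtain ⟨Q, hb⟩ := exists_zero h.x_trans t
  obtain ⟨a, ha⟩ := exists_vl (P := Q) (f := w) (by_contra fun e => h.x_not_mem e hb.mem)
  refine not_sq (Q := Q) ⟨-1, ?_⟩ r
  have h1 : a ^ k ≠ 2 := fun e => ht.root (by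
    rw [h.vl_eqn ha hb, ← pow_mul, mul_comm, pow_mul, e]
    norm_num)
  have := h.po_xt ht.ne ha hb
  have := h.po_a k ha hb
  have := h.po_h hζ he ha hb
  have := ht.flex
  rw [h.po_fz]
  grind

lemma fy_not_sq' (hζ : ζ ^ 2 - ζ + 1 = 0) (he : e ≤ 1) (ht : Adm ζ k t) {Y : Type} [Field Y]
    [Algebra ℂ Y] {i : E →ₐ[ℂ] Y} {s : Y} (hs : Quad i (fs ζ e k w x) 0 s) (r : Y) :
    r ^ 2 ≠ i (fy t w x) + 0 * r := fun hr => by
  obtain ⟨p, q, rfl⟩ := hs.span r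
  have : CharZero E := charZero_of_injective_algebraMap (algebraMap ℂ E).injective
  obtain ⟨h1, h2⟩ := hs.ind (p ^ 2 + q ^ 2 * fs ζ e k w x - fy t w x) (2 * (p * q)) (by
    have := hs.sq
    simp only [map_add, map_sub, map_mul, map_pow, map_ofNat, map_zero] at this ⊢
    linear_combination hr - i q ^ 2 * this)
  rcases mul_eq_zero.1 ((mul_eq_zero.1 h2).resolve_left two_ne_zero) with rfl | rfl
  · refine h.fz_not_sq hζ he ht (q * fs ζ e k w x / w) ?_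
    rw [div_pow, div_eq_iff (pow_ne_zero 2 h.w_ne)]
    unfold fs fy fz at *
    linear_combination (w * (hh ζ w x ^ e * (w ^ k - 2))) * h1
  · exact h.fy_not_sq t p (by linear_combination h1)

end EL

end Pool.Agent.Lib.MP_13404a_ag
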