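import Pool.Agent.Lib.MP_13404a_ag.Table

/-!
The biquadratic cover of the elliptic curve and its genus.
-/

open Polynomial Module

namespace Pool.Agent.Lib.MP_13404a_ag

open Pool.Agent.Lib.MP_15f242_ag

variable {E Y K : Type} [Field E] [Algebra ℂ E] [Field Y] [Algebra ℂ Y] [Field K] [Algebra ℂ K]
  {j : RatFunc ℂ →ₐ[ℂ] E} {w x : E} {D : Derivation ℂ E E} {ζ t : ℂ} {ε k : ℕ}

lemma EL.div_Rg [FF ℂ E] [FF ℂ K] (h : EL j w x D) {ι : E →ₐ[ℂ] K} {DK : Derivation ℂ K K}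
    (hD : DK (ι w) = ι (D w)) {e : K} {f : E} (he : e * e = ι f) (hf : f ≠ 0) {d : Pt ℂ E → ℤ}
    (hd : ∀ Q, po Q f = 2 * d Q - 1 ∨ po Q f = 2 * d Q) (φ : E) :
    ι φ / e ∈ Rg DK ↔ φ ∈ LL d := by
  rw [← sq_LL hf hd]
  refine sq_Rg (der_comm ι h.trans hD) (w := ι w) (by simpa [hD] using h.Dw_ne) h.ord ?_
  rw [map_mul, map_inv₀, ← he, map_pow, div_pow, sq e, div_eq_mul_inv]

/-- The tower `E ⊆ Y ⊆ K`. -/
structure TW (j : RatFunc ℂ →ₐ[ℂ] E) (w x : E) (D : Derivation ℂ E E) (ζ : ℂ) (ε k : ℕ) (t : ℂ)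
    (i : E →ₐ[ℂ] Y) (s : Y) (l : Y →ₐ[ℂ] K) (y : K) (DK : Derivation ℂ K K) : Prop where
  el : EL j w x D
  hζ : ζ ^ 2 - ζ + 1 = 0
  hε : ε ≤ 1
  adm : Adm ζ k t
  qs : Quad i (fs ζ ε k w x) 0 s
  qy : Quad l (i (fy t w x)) 0 y
  hD : DK (l (i w)) = l (i (D w))

/-- Decomposition into eigenspaces. -/
noncomputable def psi (ι : E →ₐ[ℂ] K) (s y z : K) : E × E × E × E →ₗ[ℂ] K where
  toFun φ := ι φ.1 + ι φ.2.1 / s + ι φ.2.2.1 / y + ι φ.2.2.2 / z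
  map_add' a b := by simp only [Prod.fst_add, Prod.snd_add, map_add]; ring
  map_smul' c a := by
    simp only [Prod.smul_fst, Prod.smul_snd, map_smul, RingHom.id_apply, smul_add, smul_div_assoc]

lemma psi_apply (ι : E →ₐ[ℂ] K) (s y z : K) (a b c d : E) :
    psi ι s y z (a, b, c, d) = ι a + ι b / s + ι c / y + ι d / z := rfl

namespace TW

variable {i : E →ₐ[ℂ] Y} {s : Y} {l : Y →ₐ[ℂ] K} {y : K} {DK : Derivation ℂ K K}
  (h : TW j w x D ζ ε k t i s l y DK)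

include h

lemma s_sq : l s * l s = l (i (fs ζ ε k w x)) := by simpa using congrArg l h.qs.sq

lemma y_sq : y * y = l (i (fy t w x)) := by simpa using h.qy.sq

lemma w_ne : l (i w) ≠ 0 := by simpa using h.el.w_ne

lemma s_ne : l s ≠ 0 := by simpa using h.qs.ne_zero

lemma z_sq : l s * y / l (i w) * (l s * y / l (i w)) = l (i (fz ζ ε k t w x)) := by
  have h1 := h.s_sq
  have h2 := h.y_sq
  have h3 := h.w_ne
  simp only [fs, fy, fz, map_mul] at h1 h2 ⊢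
  field_simp
  linear_combination y * y * h1 + l (i w) * (l (i (hh ζ w x ^ ε)) * l (i (w ^ k - 2))) * h2

lemma Dw_ne : DK (l (i w)) ≠ 0 := by simpa [h.hD] using h.el.Dw_ne

lemma psi_eq (a b c d : E) : psi (l.comp i) (l s) y (l s * y / l (i w))
    (a, b * fs ζ ε k w x, c * fy t w x, d * (w * fz ζ ε k t w x)) =
      l (i a + i b * s) + l (i c + i d * s) * y := by
  have h1 := h.s_ne
  have h2 := h.qy.ne_zero
  have h3 := h.w_ne
  simp only [psi_apply, AlgHom.comp_apply, map_add, map_mul, ← h.s_sq, ← h.y_sq, ← h.z_sq]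
  field_simp
  ring

variable [FF ℂ E]

lemma psi_inj : Function.Injective (psi (l.comp i) (l s) y (l s * y / l (i w))) :=
  (injective_iff_map_eq_zero _).2 fun ⟨a, b, c, d⟩ e => by
    have h1 := h.el.fs_ne ζ ε k
    have h2 := h.el.fy_ne t
    have h3 := mul_ne_zero h.el.w_ne (h.el.fz_ne ζ ε k t)
    rw [← div_mul_cancel₀ b h1, ← div_mul_cancel₀ c h2, ← div_mul_cancel₀ d h3, h.psi_eq] at e
    obtain ⟨h4, h5⟩ := h.qy.ind _ _ e
    obtain ⟨rfl, h6⟩ := h.qs.ind _ _ h4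
    obtain ⟨h7, h8⟩ := h.qs.ind _ _ h5
    rw [(div_eq_zero_iff.1 h6).resolve_right h1, (div_eq_zero_iff.1 h7).resolve_right h2,
      (div_eq_zero_iff.1 h8).resolve_right h3]
    rfl

omit [FF ℂ E] in
lemma psi_surj : Function.Surjective (psi (l.comp i) (l s) y (l s * y / l (i w))) := fun g => by
  obtain ⟨p, q, rfl⟩ := h.qy.span g
  obtain ⟨a, b, rfl⟩ := h.qs.span p
  obtain ⟨c, d, rfl⟩ := h.qs.span q
  exact ⟨_, h.psi_eq a b c d⟩

variable [FF ℂ K]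

lemma psi_mem {a b c d : E} : psi (l.comp i) (l s) y (l s * y / l (i w)) (a, b, c, d) ∈ Rg DK ↔
    a ∈ LL (d0 w 0) ∧ b ∈ LL (d1 w (hh ζ w x ^ ε) (k + 1 + 2 * ε)) ∧ c ∈ LL (d0 w 3) ∧
      d ∈ LL (d1 w (hh ζ w x ^ ε) (k + 2 + ε)) := by
  have h0 := h.el.div_Rg (ι := l.comp i) h.hD (e := 1) (f := 1) (by simp) one_ne_zero
    (d := d0 w 0) (fun Q => by simp [po_one, d0]) a
  rw [div_one] at h0
  rw [← h0, ← h.el.div_Rg (ι := l.comp i) h.hD h.s_sq (h.el.fs_ne ζ ε k) (h.el.tab_s h.hζ h.hε),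
    ← h.el.div_Rg (ι := l.comp i) h.hD h.y_sq (h.el.fy_ne t) (h.el.tab_y h.adm.ne),
    ← h.el.div_Rg (ι := l.comp i) h.hD h.z_sq (h.el.fz_ne ζ ε k t) (h.el.tab_z h.hζ h.hε h.adm),
    psi_apply]
  refine ⟨fun h1 => ?_, fun ⟨h1, h2, h3, h4⟩ => add_mem (add_mem (add_mem h1 h2) h3) h4⟩
  have key : ∀ σ : K →ₐ[ℂ] K, (∀ f, σ (l (i f)) = l (i f)) → ∀ g ∈ Rg DK, σ g ∈ Rg DK :=
    fun σ hσ g hg => map_Rg (der_comm σ (trans_of_der h.Dw_ne) (by rw [h.hD, hσ, hσ, h.hD]))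
      h.Dw_ne hg
  obtain ⟨σ, a1, a2⟩ := h.qy.lift K l (-y) (by simpa using h.y_sq)
  obtain ⟨ρ, b1, b2⟩ := h.qs.lift K (l.comp i) (-l s) (by simpa using h.s_sq)
  obtain ⟨τ, c1, c2⟩ := h.qy.lift K ρ y (by simpa [b1] using h.y_sq)
  have c3 : ∀ f, τ (l (i f)) = l (i f) := fun f => by rw [c1, b1]; rfl
  have h2 := key σ (fun f => a1 _) _ h1
  have h3 := key τ c3 _ h1
  have h4 := key τ c3 _ h2
  simp only [AlgHom.comp_apply, map_add, map_div₀, map_mul, map_neg, a1, a2, b1, b2, c1, c2]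
    at h1 h2 h3 h4 ⊢
  have : CharZero K := charZero_of_injective_algebraMap (algebraMap ℂ K).injective
  have h5 : ∀ g : K, 4 * g ∈ Rg DK → g ∈ Rg DK := fun g hg => by
    have := (Rg DK).smul_mem (1 / 4 : ℂ) hg
    rwa [Algebra.smul_def, map_div₀, map_one, map_ofNat, ← mul_assoc, one_div_mul_cancel (by simp),
      one_mul] at this
  refine ⟨h5 _ ?_, h5 _ ?_, h5 _ ?_, h5 _ ?_⟩
  · convert add_mem (add_mem h1 h2) (add_mem h3 h4) using 1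
    ring
  · convert sub_mem (add_mem h1 h2) (add_mem h3 h4) using 1
    ring
  · convert add_mem (sub_mem h1 h2) (sub_mem h3 h4) using 1
    ring
  · convert sub_mem (sub_mem h1 h2) (sub_mem h3 h4) using 1
    ring

lemma genus : finrank ℂ (regular K) = 2 * k + 7 + ε := by
  obtain ⟨a1, a2⟩ := h.el.dim_d0 0
  obtain ⟨b1, b2⟩ := h.el.dim_d0 3
  obtain ⟨c1, c2⟩ := h.el.dim_e h.hζ h.hε (n := k + 1 + 2 * ε) (by omega)
  obtain ⟨d1', d2⟩ := h.el.dim_e h.hζ h.hε (n := k + 2 + ε) (by omega)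
  let f := psi (l.comp i) (l s) y (l s * y / l (i w)) ∘ₗ (LL (d0 w 0)).subtype.prodMap
    ((LL (d1 w (hh ζ w x ^ ε) (k + 1 + 2 * ε))).subtype.prodMap
      ((LL (d0 w 3)).subtype.prodMap (LL (d1 w (hh ζ w x ^ ε) (k + 2 + ε))).subtype))
  have hf : Function.Injective f := h.psi_inj.comp (Subtype.val_injective.prodMap
    (Subtype.val_injective.prodMap (Subtype.val_injective.prodMap Subtype.val_injective)))
  have e : Rg DK = LinearMap.range f := Submodule.ext fun g => by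
    obtain ⟨⟨a, b, c, d⟩, rfl⟩ := h.psi_surj g
    refine ⟨fun h1 => ?_, fun ⟨⟨a', b', c', d'⟩, e⟩ => e ▸ h.psi_mem.2 ⟨a'.2, b'.2, c'.2, d'.2⟩⟩
    obtain ⟨h2, h3, h4, h5⟩ := h.psi_mem.1 h1
    exact ⟨(⟨a, h2⟩, ⟨b, h3⟩, ⟨c, h4⟩, ⟨d, h5⟩), rfl⟩
  rw [finrank_regular h.Dw_ne, e, LinearMap.finrank_range_of_inj hf, finrank_prod, finrank_prod,
    finrank_prod, a2, b2, c2, d2]
  omega

end TW

end Pool.Agent.Lib.MP_13404a_ag
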